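import Mathlib
import Pool.Agent.W301.SS.Core

/-! The large spectrum of a family and its additive energies. -/

set_option autoImplicit false

namespace Pool.Agent.K1H84.TF

open Finset
open Pool.Agent.W301.SS
open Pool.Agent.H807R2.Dav

/-- the exponential sum of a family of integers -/
noncomputable def FZ {ι : Type*} (I : Finset ι) (s : ι → ℤ) (x : ℝ) : ℂ := ∑ i ∈ I, ee ((s i : ℝ) * x)

lemma FZ_le {ι : Type*} (I : Finset ι) (s : ι → ℤ) (x : ℝ) : ‖FZ I s x‖ ≤ I.card := by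
  unfold FZ
  refine (norm_sum_le _ _).trans ?_
  simp [norm_ee]

/-- Parseval's identity for a family -/
lemma parsevalZ {ι : Type*} {M : ℕ} (hM : 1 ≤ M) (I : Finset ι) (s : ι → ℤ) :
    ∑ r ∈ range M, ‖FZ I s ((r : ℝ) / M)‖ ^ 2 = M * (((I ×ˢ I).filter (fun x => (M : ℤ) ∣ s x.1 - s x.2)).card : ℝ) := by
  classical
  have key : ((∑ r ∈ range M, ‖FZ I s ((r : ℝ) / M)‖ ^ 2 : ℝ) : ℂ) =
      ((M * (((I ×ˢ I).filter (fun x => (M : ℤ) ∣ s x.1 - s x.2)).card : ℝ) : ℝ) : ℂ) := by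
    push_cast
    have e1 : ∀ r ∈ range M, ((‖FZ I s ((r : ℝ) / M)‖ : ℂ)) ^ 2 =
        ∑ x ∈ I ×ˢ I, ee ((s x.1 - s x.2 : ℤ) * ((r : ℝ) / M)) := by
      intro r _
      rw [← Complex.mul_conj']
      unfold FZ
      rw [map_sum, sum_mul_sum, sum_product]
      apply sum_congr rfl
      intro a _
      apply sum_congr rfl
      intro b _
      rw [star_ee, ← ee_add]
      congr 1
      push_cast; ring
    rw [sum_congr rfl e1, sum_comm]
    have e2 : ∀ x ∈ I ×ˢ I, ∑ r ∈ range M, ee ((s x.1 - s x.2 : ℤ) * ((r : ℝ) / M)) =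
        if (M : ℤ) ∣ s x.1 - s x.2 then (M : ℂ) else 0 := fun x _ => orth hM _
    rw [sum_congr rfl e2, ← sum_filter, sum_const, nsmul_eq_mul]
    ring
  exact_mod_cast key

/-- powers of the exponential sum -/
lemma FZ_pow {ι : Type*} (I : Finset ι) (s : ι → ℤ) (h : ℕ) (x : ℝ) :
    FZ I s x ^ h = FZ (Fintype.piFinset (fun _ : Fin h => I)) (fun q => ∑ l, s (q l)) x := by
  classical
  unfold FZ
  have h1 : (∑ i ∈ I, ee ((s i : ℝ) * x)) ^ h = ∏ _l : Fin h, ∑ i ∈ I, ee ((s i : ℝ) * x) := by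
    rw [prod_const, card_univ, Fintype.card_fin]
  rw [h1, Finset.prod_univ_sum]
  apply sum_congr rfl
  intro q _
  have h2 : ∀ (S : Finset (Fin h)), ∏ l ∈ S, ee ((s (q l) : ℝ) * x) = ee (((∑ l ∈ S, s (q l) : ℤ) : ℝ) * x) := by
    intro S
    induction S using Finset.induction_on with
    | empty => simp [ee_zero]
    | insert a S ha ih =>
      rw [prod_insert ha, sum_insert ha, ih, ← ee_add]
      congr 1
      push_cast; ring
  exact h2 univ

/-- the number of the frequencies with a large exponential sum -/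
theorem spec_energy {ι : Type*} {M : ℕ} (hM : 1 ≤ M) (I : Finset ι) (s : ι → ℤ) (h : ℕ) (η : ℝ) (hη : 0 ≤ η) :
    ((((range M).filter (fun r : ℕ => η * I.card < ‖FZ I s ((r : ℝ) / M)‖)).card : ℝ)) * (η * I.card) ^ (2 * h) ≤
      M * ((((Fintype.piFinset (fun _ : Fin h => I)) ×ˢ (Fintype.piFinset (fun _ : Fin h => I))).filter
        (fun x => (M : ℤ) ∣ (∑ l, s (x.1 l)) - ∑ l, s (x.2 l))).card : ℝ) := by
  classical
  have hP := parsevalZ hM (Fintype.piFinset (fun _ : Fin h => I)) (fun q => ∑ l, s (q l))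
  refine le_trans ?_ (le_of_eq hP)
  have h1 : ∀ r ∈ range M, ‖FZ (Fintype.piFinset (fun _ : Fin h => I)) (fun q => ∑ l, s (q l)) ((r : ℝ) / M)‖ ^ 2 =
      ‖FZ I s ((r : ℝ) / M)‖ ^ (2 * h) := by
    intro r _
    rw [← FZ_pow, norm_pow, ← pow_mul, mul_comm h 2]
  rw [sum_congr rfl h1]
  calc _ = ∑ _r ∈ (range M).filter (fun r : ℕ => η * I.card < ‖FZ I s ((r : ℝ) / M)‖), (η * I.card) ^ (2 * h) := by
        rw [sum_const, nsmul_eq_mul]
    _ ≤ ∑ r ∈ (range M).filter (fun r : ℕ => η * I.card < ‖FZ I s ((r : ℝ) / M)‖), ‖FZ I s ((r : ℝ) / M)‖ ^ (2 * h) := by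
        apply sum_le_sum
        intro r hr
        exact pow_le_pow_left₀ (by positivity) (mem_filter.1 hr).2.le _
    _ ≤ _ := sum_le_sum_of_subset_of_nonneg (filter_subset _ _) fun _ _ _ => by positivity

end Pool.Agent.K1H84.TF
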