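import Mathlib
import Pool.Agent.W301.SS.Asym

/-! The discrete Fourier transform of the difference of two means of the primes. -/

set_option autoImplicit false

namespace Pool.Agent.K1H84.TF

open Finset Filter
open Pool.Agent.W301.SS
open Pool.Agent.H807R2.Dav

/-- the mean of `om` over `(m, m + H]` minus the mean over `(m, m + H1]` -/
noncomputable def DD (H H1 m : ℕ) : ℝ :=
  (∑ h ∈ Ioc 0 H, om (m + h)) / H - (∑ h ∈ Ioc 0 H1, om (m + h)) / H1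

lemma om_le_log {n X : ℕ} (h : n ≤ X) (_hX : 1 ≤ X) : om n ≤ Real.log X := by
  unfold om
  split_ifs with hp
  · exact Real.log_le_log (by exact_mod_cast hp.pos) (by exact_mod_cast h)
  · exact Real.log_natCast_nonneg X

lemma mean_le (H m X : ℕ) (hX : 1 ≤ X) (h : m + H ≤ X) :
    0 ≤ (∑ h ∈ Ioc 0 H, om (m + h)) / H ∧ (∑ h ∈ Ioc 0 H, om (m + h)) / H ≤ Real.log X := by
  have hl : 0 ≤ Real.log (X : ℝ) := Real.log_natCast_nonneg X
  refine ⟨div_nonneg (sum_nonneg fun _ _ => om_nonneg _) (Nat.cast_nonneg _), ?_⟩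
  have h1 : ∑ h ∈ Ioc 0 H, om (m + h) ≤ H * Real.log X := by
    calc ∑ h ∈ Ioc 0 H, om (m + h) ≤ ∑ _h ∈ Ioc 0 H, Real.log X := by
          apply sum_le_sum
          intro i hi
          rw [mem_Ioc] at hi
          exact om_le_log (by omega) hX
      _ = H * Real.log X := by rw [sum_const, Nat.card_Ioc, nsmul_eq_mul, Nat.sub_zero]
  apply div_le_of_le_mul₀ (Nat.cast_nonneg _) hl
  linarith

lemma DD_le (H H1 m X : ℕ) (hX : 1 ≤ X) (h : m + H ≤ X) (h1 : m + H1 ≤ X) :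
    |DD H H1 m| ≤ Real.log X := by
  have a := mean_le H m X hX h
  have b := mean_le H1 m X hX h1
  unfold DD
  rw [abs_le]
  constructor <;> linarith

lemma ee_period {M : ℕ} (hM : 1 ≤ M) (r : ℕ) (k : ℤ) : ee ((k : ℝ) * (((r : ℝ) - M) / M)) = ee ((k : ℝ) * ((r : ℝ) / M)) :=
  ee_red hM r k

/-- the transform of a shifted sequence -/
lemma shift_dft {M h : ℕ} (hM : 1 ≤ M) (h1 : 1 ≤ h) (hhM : h ≤ M) (x : ℝ) :
    ‖∑ n ∈ range M, ((om (n + h) : ℝ) : ℂ) * ee (-((n : ℝ) * x)) - ee ((h : ℝ) * x) * SP M (-x)‖ ≤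
      2 * h * Real.log ((2 * M : ℕ) : ℝ) := by
  have e1 : ∑ n ∈ range M, ((om (n + h) : ℝ) : ℂ) * ee (-((n : ℝ) * x)) =
      ee ((h : ℝ) * x) * ∑ m ∈ Ico h (M + h), ((om m : ℝ) : ℂ) * ee ((m : ℝ) * (-x)) := by
    rw [Finset.sum_Ico_eq_sum_range, Nat.add_sub_cancel, mul_sum]
    apply sum_congr rfl
    intro n _
    have e : ee ((h : ℝ) * x) * (((om (h + n) : ℝ) : ℂ) * ee (((h + n : ℕ) : ℝ) * -x)) =
        ((om (n + h) : ℝ) : ℂ) * (ee ((h : ℝ) * x) * ee (((h + n : ℕ) : ℝ) * -x)) := by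
      rw [add_comm h n]; ring
    rw [e, ← ee_add]
    congr 2
    push_cast; ring
  have e2 : ∑ m ∈ Ico h (M + h), ((om m : ℝ) : ℂ) * ee ((m : ℝ) * (-x)) - SP M (-x) =
      ∑ m ∈ Ico (M + 1) (M + h), ((om m : ℝ) : ℂ) * ee ((m : ℝ) * (-x)) -
        ∑ m ∈ Ico 1 h, ((om m : ℝ) : ℂ) * ee ((m : ℝ) * (-x)) := by
    have e3 : SP M (-x) = ∑ m ∈ Ico 1 (M + 1), ((om m : ℝ) : ℂ) * ee ((m : ℝ) * (-x)) := by
      unfold SP
      apply sum_congr _ (fun _ _ => rfl)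
      ext i; simp only [mem_Icc, mem_Ico]; omega
    rw [e3, ← Finset.sum_Ico_consecutive _ (show h ≤ M + 1 by omega) (show M + 1 ≤ M + h by omega),
      ← Finset.sum_Ico_consecutive _ (show 1 ≤ h from h1) (show h ≤ M + 1 by omega)]
    ring
  have hl : 0 ≤ Real.log ((2 * M : ℕ) : ℝ) := Real.log_natCast_nonneg _
  have e4 : ∀ a b : ℕ, b ≤ 2 * M + 1 → ‖∑ m ∈ Ico a b, ((om m : ℝ) : ℂ) * ee ((m : ℝ) * (-x))‖ ≤
      ((b - a : ℕ) : ℝ) * Real.log ((2 * M : ℕ) : ℝ) := by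
    intro a b hb
    refine (norm_sum_le _ _).trans ?_
    calc ∑ m ∈ Ico a b, ‖((om m : ℝ) : ℂ) * ee ((m : ℝ) * (-x))‖ ≤ ∑ _m ∈ Ico a b, Real.log ((2 * M : ℕ) : ℝ) := by
          apply sum_le_sum
          intro m hm
          rw [mem_Ico] at hm
          rw [norm_mul, norm_ee, mul_one, Complex.norm_real, Real.norm_eq_abs, abs_of_nonneg (om_nonneg _)]
          exact om_le_log (by omega) (by omega)
      _ = _ := by rw [sum_const, Nat.card_Ico, nsmul_eq_mul]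
  rw [e1, ← mul_sub, norm_mul, norm_ee, one_mul, e2]
  refine (norm_sub_le _ _).trans ?_
  have a1 := e4 (M + 1) (M + h) (by omega)
  have a2 := e4 1 h (by omega)
  have a3 : ((M + h - (M + 1) : ℕ) : ℝ) ≤ h := by exact_mod_cast (by omega : M + h - (M + 1) ≤ h)
  have a4 : ((h - 1 : ℕ) : ℝ) ≤ h := by exact_mod_cast (by omega : h - 1 ≤ h)
  have a5 := mul_le_mul_of_nonneg_right a3 hl
  have a6 := mul_le_mul_of_nonneg_right a4 hl
  linarith

lemma mean_dft {M H : ℕ} (hM : 1 ≤ M) (hH : 1 ≤ H) (hHM : H ≤ M) (x : ℝ) :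
    ‖∑ n ∈ range M, (((∑ h ∈ Ioc 0 H, om (n + h)) / H : ℝ) : ℂ) * ee (-((n : ℝ) * x)) -
      (FK H x / H) * SP M (-x)‖ ≤ 2 * H * Real.log ((2 * M : ℕ) : ℝ) := by
  have hH0 : (0 : ℝ) < H := by exact_mod_cast hH
  have hHc : (H : ℂ) ≠ 0 := by exact_mod_cast hH0.ne'
  have hl : 0 ≤ Real.log ((2 * M : ℕ) : ℝ) := Real.log_natCast_nonneg _
  have e : ∑ n ∈ range M, (((∑ h ∈ Ioc 0 H, om (n + h)) / H : ℝ) : ℂ) * ee (-((n : ℝ) * x)) -
      (FK H x / H) * SP M (-x) =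
      (∑ h ∈ Ioc 0 H, (∑ n ∈ range M, ((om (n + h) : ℝ) : ℂ) * ee (-((n : ℝ) * x)) -
        ee ((h : ℝ) * x) * SP M (-x))) / H := by
    rw [sum_sub_distrib, sum_comm]
    unfold FK
    rw [← sum_mul, sub_div]
    congr 1
    · rw [Finset.sum_div]
      apply sum_congr rfl
      intro n _
      push_cast
      rw [← sum_mul]
      ring
    · ring
  rw [e, norm_div, Complex.norm_natCast, div_le_iff₀ hH0]
  refine (norm_sum_le _ _).trans ?_
  calc ∑ h ∈ Ioc 0 H, ‖∑ n ∈ range M, ((om (n + h) : ℝ) : ℂ) * ee (-((n : ℝ) * x)) -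
        ee ((h : ℝ) * x) * SP M (-x)‖ ≤ ∑ _h ∈ Ioc 0 H, 2 * H * Real.log ((2 * M : ℕ) : ℝ) := by
        apply sum_le_sum
        intro h hh
        rw [mem_Ioc] at hh
        refine (shift_dft hM (by omega) (by omega) x).trans ?_
        have : (h : ℝ) ≤ H := by exact_mod_cast hh.2
        gcongr
    _ = _ := by
        rw [sum_const, Nat.card_Ioc, nsmul_eq_mul, Nat.sub_zero]; ring

lemma DD_dft {M H H1 : ℕ} (hM : 1 ≤ M) (hH : 1 ≤ H) (hHH : H ≤ H1) (hHM : H1 ≤ M) (x : ℝ) :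
    ‖∑ n ∈ range M, ((DD H H1 n : ℝ) : ℂ) * ee (-((n : ℝ) * x))‖ ≤
      ‖SP M (-x)‖ * ‖FK H x / H - FK H1 x / H1‖ + 4 * H1 * Real.log ((2 * M : ℕ) : ℝ) := by
  have hl : 0 ≤ Real.log ((2 * M : ℕ) : ℝ) := Real.log_natCast_nonneg _
  have h1 := mean_dft hM hH (hHH.trans hHM) x
  have h2 := mean_dft hM (hH.trans hHH) hHM x
  have e : ∑ n ∈ range M, ((DD H H1 n : ℝ) : ℂ) * ee (-((n : ℝ) * x)) =
      SP M (-x) * (FK H x / H - FK H1 x / H1) +
      (∑ n ∈ range M, (((∑ h ∈ Ioc 0 H, om (n + h)) / H : ℝ) : ℂ) * ee (-((n : ℝ) * x)) -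
        (FK H x / H) * SP M (-x)) -
      (∑ n ∈ range M, (((∑ h ∈ Ioc 0 H1, om (n + h)) / H1 : ℝ) : ℂ) * ee (-((n : ℝ) * x)) -
        (FK H1 x / H1) * SP M (-x)) := by
    have e1 : ∑ n ∈ range M, ((DD H H1 n : ℝ) : ℂ) * ee (-((n : ℝ) * x)) =
        ∑ n ∈ range M, (((∑ h ∈ Ioc 0 H, om (n + h)) / H : ℝ) : ℂ) * ee (-((n : ℝ) * x)) -
        ∑ n ∈ range M, (((∑ h ∈ Ioc 0 H1, om (n + h)) / H1 : ℝ) : ℂ) * ee (-((n : ℝ) * x)) := by
      rw [← sum_sub_distrib]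
      apply sum_congr rfl
      intro n _
      unfold DD
      push_cast
      ring
    rw [e1]
    ring
  rw [e]
  refine (norm_sub_le _ _).trans ?_
  have h3 := norm_add_le (SP M (-x) * (FK H x / H - FK H1 x / H1))
    (∑ n ∈ range M, (((∑ h ∈ Ioc 0 H, om (n + h)) / H : ℝ) : ℂ) * ee (-((n : ℝ) * x)) -
        (FK H x / H) * SP M (-x))
  rw [norm_mul] at h3
  have h4 : 2 * (H : ℝ) * Real.log ((2 * M : ℕ) : ℝ) ≤ 2 * H1 * Real.log ((2 * M : ℕ) : ℝ) := by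
    have : (H : ℝ) ≤ H1 := by exact_mod_cast hHH
    gcongr
  linarith

/-- the bound at all the frequencies -/
lemma DD_freq {C : ℝ} (hC : VC C) {M H H1 : ℕ} (hM : 1 ≤ M) (hH : 1 ≤ H) (hHH : H ≤ H1) (hHM : H1 ≤ M) (Q : ℝ) (hQ : 0 < Q)
    {r : ℕ} (hr : r < M) :
    ‖∑ n ∈ range M, ((DD H H1 n : ℝ) : ℂ) * ee (-((n : ℝ) * ((r : ℝ) / M)))‖ ≤
      (6 * C + 26) * ERR M H H1 Q + 4 * H1 * Real.log ((2 * M : ℕ) : ℝ) := by
  have hE : 0 ≤ ERR M H H1 Q := by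
    unfold ERR
    have := Real.log_natCast_nonneg M
    positivity
  have hE2 : 0 ≤ (6 * C + 26) * ERR M H H1 Q := by have := hC.1; positivity
  refine (DD_dft hM hH hHH hHM _).trans ?_
  apply add_le_add _ le_rfl
  rcases Nat.eq_zero_or_pos r with h0 | h0
  · subst h0
    have hH0 : (H : ℂ) ≠ 0 := by
      have : 0 < H := hH
      exact_mod_cast this.ne'
    have hH10 : (H1 : ℂ) ≠ 0 := by
      have : 0 < H1 := by omega
      exact_mod_cast this.ne'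
    have : FK H (((0 : ℕ) : ℝ) / M) / H - FK H1 (((0 : ℕ) : ℝ) / M) / H1 = 0 := by
      unfold FK
      simp [ee_zero, hH0, hH10]
    rw [this, norm_zero, mul_zero]
    exact hE2
  · rcases le_or_gt (2 * r) M with h | h
    · exact one_point hC hM h0 h H H1 hH hHH Q hQ _ (Or.inl rfl)
    · have hm1 : 1 ≤ M - r := by omega
      have hm2 : 2 * (M - r) ≤ M := by omega
      have key := one_point hC hM hm1 hm2 H H1 hH hHH Q hQ _ (Or.inr rfl)
      have e0 : -(((M - r : ℕ) : ℝ) / M) = (((r : ℝ) - M) / M) := by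
        rw [Nat.cast_sub (by omega)]; ring
      rw [e0] at key
      have e1 : ∀ K : ℕ, FK K (((r : ℝ) - M) / M) = FK K ((r : ℝ) / M) := by
        intro K
        unfold FK
        apply sum_congr rfl
        intro i _
        have := ee_red (M := M) hM r (i : ℤ)
        push_cast at this ⊢
        exact this
      have e2 : SP M (-(((r : ℝ) - M) / M)) = SP M (-((r : ℝ) / M)) := by
        unfold SP
        apply sum_congr rfl
        intro i _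
        have := ee_red (M := M) hM r (-(i : ℤ))
        push_cast at this ⊢
        rw [mul_neg, mul_neg, ← neg_mul, ← neg_mul, this]
      rw [e1, e1, e2] at key
      exact key

/-- the transform is small at all frequencies -/
theorem DD_small (w : ℕ) : ∃ K B : ℕ, ∀ᶠ M : ℕ in atTop, ∀ H H1 : ℕ, 1 ≤ H → H ≤ H1 →
    Real.log M ^ K ≤ H → (H1 : ℝ) * Real.log M ^ B ≤ M → ∀ r : ℕ, r < M →
    ‖∑ n ∈ range M, ((DD H H1 n : ℝ) : ℂ) * ee (-((n : ℝ) * ((r : ℝ) / M)))‖ ≤ M / Real.log M ^ w := by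
  obtain ⟨C, hC⟩ := vinoP
  have hC' : VC C := hC
  set K2 : ℕ := 2 * (w + 10) with hK2
  set B : ℕ := 2 * K2 with hB
  refine ⟨K2, B, ?_⟩
  filter_upwards [ev_L ((6 * C + 26) * 800 + 40), ev_log (w + 10) 2 (1 / 5) (by norm_num),
    eventually_ge_atTop 16] with M h1 h3 hM16 H H1 hH hHH hHK hH1B r hr
  have hMr : (16 : ℝ) ≤ M := by exact_mod_cast hM16
  have hM0 : (0 : ℝ) < M := by linarith
  set ℓ := Real.log M with hℓ
  have hC0 : 0 < C := hC.1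
  have hℓ16 : 40 ≤ ℓ := by nlinarith
  have hℓ0 : 0 < ℓ := by linarith
  have hℓ1 : 1 ≤ ℓ := by linarith
  have hHr : (1 : ℝ) ≤ H := by exact_mod_cast hH
  have hH1r : (H1 : ℝ) ≤ M / ℓ ^ B := by rw [le_div_iff₀ (by positivity)]; exact hH1B
  have hH1M : H1 ≤ M := by
    have : (H1 : ℝ) ≤ M := hH1r.trans (div_le_self hM0.le (one_le_pow₀ hℓ1))
    exact_mod_cast this
  have key := DD_freq hC' (by omega) hH hHH hH1M (M / ℓ ^ K2) (by positivity) hr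
  refine key.trans ?_
  have hlog2 : Real.log ((2 * M : ℕ) : ℝ) ≤ 2 * ℓ := by
    push_cast
    rw [Real.log_mul (by norm_num) hM0.ne']
    have := Real.log_two_lt_d9
    linarith
  have hL : 1 + ℓ ≤ 2 * ℓ := by linarith
  have hL7 : (1 + ℓ) ^ 7 ≤ 128 * ℓ ^ 7 := by
    calc _ ≤ (2 * ℓ) ^ 7 := pow_le_pow_left₀ (by linarith) hL 7
      _ = _ := by ring
  have c1 : (M : ℝ) / √(H : ℝ) ≤ M / ℓ ^ (w + 10) := by
    have : ℓ ^ (w + 10) ≤ √(H : ℝ) := by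
      apply Real.le_sqrt_of_sq_le
      rw [← pow_mul]
      have e : (w + 10) * 2 = K2 := by omega
      rw [e]; exact hHK
    gcongr
  have c2 : (M : ℝ) ^ (4 / 5 : ℝ) ≤ M / ℓ ^ (w + 10) := by
    rw [le_div_iff₀ (by positivity)]
    calc (M : ℝ) ^ (4 / 5 : ℝ) * ℓ ^ (w + 10) ≤ (M : ℝ) ^ (4 / 5 : ℝ) * (M : ℝ) ^ (1 / 5 : ℝ) := by
          apply mul_le_mul_of_nonneg_left _ (by positivity)
          have : 0 ≤ ℓ ^ (w + 10) := by positivity
          linarith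
      _ = M := by rw [← Real.rpow_add hM0]; norm_num
  have c3 : √((M : ℝ) * (M / ℓ ^ K2)) ≤ M / ℓ ^ (w + 10) := by
    apply Real.sqrt_le_iff.2
    refine ⟨by positivity, le_of_eq ?_⟩
    rw [div_pow, ← pow_mul]
    have e : (w + 10) * 2 = K2 := by omega
    rw [e]
    field_simp
  have c4 : (M : ℝ) * H1 / (M / ℓ ^ K2) ≤ M / ℓ ^ (w + 10) := by
    calc (M : ℝ) * H1 / (M / ℓ ^ K2) ≤ (M : ℝ) * (M / ℓ ^ B) / (M / ℓ ^ K2) := by gcongr
      _ = M / ℓ ^ K2 := by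
          rw [hB]
          have e : ℓ ^ (2 * K2) = ℓ ^ K2 * ℓ ^ K2 := by rw [two_mul, pow_add]
          rw [e]; field_simp
      _ ≤ _ := by
          apply div_le_div_of_nonneg_left hM0.le (by positivity)
          exact pow_le_pow_right₀ hℓ1 (by omega)
  have c5 : ERR M H H1 (M / ℓ ^ K2) ≤ 400 * (M / ℓ ^ (w + 3)) := by
    unfold ERR
    rw [← hℓ]
    have d0 : (M : ℝ) / √(H : ℝ) + (M : ℝ) ^ (4 / 5 : ℝ) + √((M : ℝ) * (M / ℓ ^ K2)) ≤
        3 * (M / ℓ ^ (w + 10)) := by linarith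
    have d2 : (1 + ℓ) ^ 7 * ((M : ℝ) / √(H : ℝ) + (M : ℝ) ^ (4 / 5 : ℝ) + √((M : ℝ) * (M / ℓ ^ K2))) ≤
        (128 * ℓ ^ 7) * (3 * (M / ℓ ^ (w + 10))) := by gcongr
    have d3 : (128 * ℓ ^ 7) * (3 * (M / ℓ ^ (w + 10))) = 384 * (M / ℓ ^ (w + 3)) := by
      have e : ℓ ^ (w + 10) = ℓ ^ 7 * ℓ ^ (w + 3) := by rw [← pow_add]; congr 1; omega
      rw [e]; field_simp; norm_num
    have d4 : M / ℓ ^ (w + 10) ≤ M / ℓ ^ (w + 3) := by
      apply div_le_div_of_nonneg_left hM0.le (by positivity)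
      exact pow_le_pow_right₀ hℓ1 (by omega)
    have d5 : 0 ≤ (M : ℝ) / ℓ ^ (w + 3) := by positivity
    linarith
  have c6 : 4 * (H1 : ℝ) * Real.log ((2 * M : ℕ) : ℝ) ≤ 8 * (M / ℓ ^ (w + 3)) := by
    calc 4 * (H1 : ℝ) * Real.log ((2 * M : ℕ) : ℝ) ≤ 4 * (M / ℓ ^ B) * (2 * ℓ) := by gcongr
      _ = 8 * (M / ℓ ^ (B - 1)) := by
          have e : ℓ ^ B = ℓ ^ (B - 1) * ℓ := by rw [← pow_succ, Nat.sub_add_cancel (by omega)]
          rw [e]; field_simp; norm_num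
      _ ≤ _ := by
          apply mul_le_mul_of_nonneg_left _ (by norm_num)
          apply div_le_div_of_nonneg_left hM0.le (by positivity)
          exact pow_le_pow_right₀ hℓ1 (by omega)
  have c7 : M / ℓ ^ (w + 3) = M / ℓ ^ w / ℓ ^ 3 := by rw [pow_add, div_div]
  have c8 : 0 ≤ (M : ℝ) / ℓ ^ w := by positivity
  calc (6 * C + 26) * ERR M H H1 (M / ℓ ^ K2) + 4 * H1 * Real.log ((2 * M : ℕ) : ℝ) ≤
      (6 * C + 26) * (400 * (M / ℓ ^ (w + 3))) + 8 * (M / ℓ ^ (w + 3)) := by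
        have : 0 ≤ 6 * C + 26 := by positivity
        gcongr
    _ = ((6 * C + 26) * 400 + 8) / ℓ ^ 3 * (M / ℓ ^ w) := by rw [c7]; ring
    _ ≤ 1 * (M / ℓ ^ w) := by
        apply mul_le_mul_of_nonneg_right _ c8
        rw [div_le_one (by positivity)]
        have : ℓ ≤ ℓ ^ 3 := le_self_pow₀ hℓ1 (by norm_num)
        nlinarith
    _ = _ := one_mul _

end Pool.Agent.K1H84.TF
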