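import Mathlib
import Pool.Agent.K1H84.TF.Ker
import Pool.Agent.W301.SS.ModQ

/-! The variance over the translates of a family of residues. -/

set_option autoImplicit false

namespace Pool.Agent.K1H84.TF

open Finset Filter
open Pool.Agent.W301.SS
open Pool.Agent.H807R2.Dav

/-- the exponential sum of a family of integers -/
noncomputable def FF {ι : Type*} (I : Finset ι) (a : ι → ℕ) (x : ℝ) : ℂ := ∑ i ∈ I, ee ((a i : ℝ) * x)

lemma dft_fam {ι : Type*} {M : ℕ} (hM : 1 ≤ M) (f : ℕ → ℝ) (hf : ∀ n, f (n + M) = f n) (I : Finset ι) (a : ι → ℕ) (c : ℕ) :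
    ∑ b ∈ range M, ((∑ i ∈ I, f (a i + b) : ℝ) : ℂ) * ee ((b : ℝ) * ((c : ℝ) / M)) =
      (∑ i ∈ I, ee (-((a i : ℝ) * ((c : ℝ) / M)))) *
        ∑ n ∈ range M, ((f n : ℝ) : ℂ) * ee ((n : ℝ) * ((c : ℝ) / M)) := by
  have hM0 : (0 : ℝ) < M := by exact_mod_cast hM
  have hM0' : (M : ℝ) ≠ 0 := hM0.ne'
  have e0 : ∀ b ∈ range M, ((∑ i ∈ I, f (a i + b) : ℝ) : ℂ) * ee ((b : ℝ) * ((c : ℝ) / M)) =
      ∑ i ∈ I, ((f (a i + b) : ℝ) : ℂ) * ee ((b : ℝ) * ((c : ℝ) / M)) := by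
    intro b _
    rw [Complex.ofReal_sum, sum_mul]
  rw [sum_congr rfl e0, sum_comm, sum_mul]
  apply sum_congr rfl
  intro i _
  have h1 := sum_shift (M := M) (fun n => ((f n : ℝ) : ℂ) * ee ((n : ℝ) * ((c : ℝ) / M))) (by
    intro n
    show ((f (n + M) : ℝ) : ℂ) * ee (((n + M : ℕ) : ℝ) * ((c : ℝ) / M)) = ((f n : ℝ) : ℂ) * ee ((n : ℝ) * ((c : ℝ) / M))
    rw [hf]
    congr 1
    have : (((n + M : ℕ) : ℕ) : ℝ) * ((c : ℝ) / M) = (n : ℝ) * ((c : ℝ) / M) + ((c : ℤ) : ℝ) := by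
      push_cast
      field_simp
    rw [this, ee_add_int]) (a i)
  rw [← h1, mul_sum]
  apply sum_congr rfl
  intro b _
  have : ee (((a i + b : ℕ) : ℝ) * ((c : ℝ) / M)) =
      ee ((a i : ℝ) * ((c : ℝ) / M)) * ee ((b : ℝ) * ((c : ℝ) / M)) := by
    rw [← ee_add]; congr 1; push_cast; ring
  have h2 : ee (-((a i : ℝ) * ((c : ℝ) / M))) * ee ((a i : ℝ) * ((c : ℝ) / M)) = 1 := by
    rw [← ee_add, neg_add_cancel, ee_zero]
  rw [this]
  linear_combination (-(((f (a i + b) : ℝ) : ℂ) * ee ((b : ℝ) * ((c : ℝ) / M)))) * h2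

lemma norm_neg_sum {ι : Type*} (I : Finset ι) (g : ι → ℝ) (x : ι → ℝ) :
    ‖∑ i ∈ I, ((g i : ℝ) : ℂ) * ee (-(x i))‖ = ‖∑ i ∈ I, ((g i : ℝ) : ℂ) * ee (x i)‖ := by
  have : ∑ i ∈ I, ((g i : ℝ) : ℂ) * ee (-(x i)) = (starRingEnd ℂ) (∑ i ∈ I, ((g i : ℝ) : ℂ) * ee (x i)) := by
    rw [map_sum]
    apply sum_congr rfl
    intro i _
    rw [map_mul, Complex.conj_ofReal, star_ee]
  rw [this, RCLike.norm_conj]

lemma norm_neg_FF {ι : Type*} (I : Finset ι) (a : ι → ℕ) (x : ℝ) : ‖∑ i ∈ I, ee (-((a i : ℝ) * x))‖ = ‖FF I a x‖ := by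
  have := norm_neg_sum I (fun _ => (1 : ℝ)) (fun i => (a i : ℝ) * x)
  simp only [Complex.ofReal_one, one_mul] at this
  exact this

/-- the variance, split at the large spectrum -/
theorem var_split {ι : Type*} {M : ℕ} (hM : 1 ≤ M) (f : ℕ → ℝ) (hf : ∀ n, f (n + M) = f n) (I : Finset ι) (a : ι → ℕ)
    (W : ℝ) (hW0 : 0 ≤ W)
    (hW : ∀ c ∈ range M, ‖∑ n ∈ range M, ((f n : ℝ) : ℂ) * ee ((n : ℝ) * ((c : ℝ) / M))‖ ≤ W)
    (η : ℝ) (hη : 0 ≤ η) (S : Finset ℕ) (hS : ∀ c ∈ range M, c ∉ S → ‖FF I a ((c : ℝ) / M)‖ ≤ η * I.card) :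
    (M : ℝ) * ∑ b ∈ range M, (∑ i ∈ I, f (a i + b)) ^ 2 ≤
      (I.card : ℝ) ^ 2 * (S.card * W ^ 2 + η ^ 2 * (M * ∑ n ∈ range M, f n ^ 2)) := by
  classical
  have hP := parsevalF hM (fun b => ((∑ i ∈ I, f (a i + b) : ℝ) : ℂ))
  have hPf := parsevalF hM (fun n => ((f n : ℝ) : ℂ))
  have h3 : ∀ g : ℕ → ℝ, ∑ b ∈ range M, ‖((g b : ℝ) : ℂ)‖ ^ 2 = ∑ b ∈ range M, (g b) ^ 2 := by
    intro g
    apply sum_congr rfl
    intro b _
    rw [Complex.norm_real, Real.norm_eq_abs, sq_abs]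
  rw [h3] at hP hPf
  rw [← hP, ← hPf]
  have hI0 : (0 : ℝ) ≤ I.card := Nat.cast_nonneg _
  have hFF : ∀ x, ‖FF I a x‖ ≤ I.card := by
    intro x
    unfold FF
    refine (norm_sum_le _ _).trans ?_
    simp [norm_ee]
  set G : ℕ → ℝ := fun c => ‖∑ n ∈ range M, ((f n : ℝ) : ℂ) * ee ((n : ℝ) * ((c : ℝ) / M))‖ with hG
  have h4 : ∀ c ∈ range M, ‖∑ b ∈ range M, ((∑ i ∈ I, f (a i + b) : ℝ) : ℂ) * ee ((b : ℝ) * ((c : ℝ) / M))‖ ^ 2 ≤
      (if c ∈ S then (I.card : ℝ) ^ 2 * W ^ 2 else 0) + (I.card : ℝ) ^ 2 * (η ^ 2 * G c ^ 2) := by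
    intro c hc
    rw [dft_fam hM f hf I a c, norm_mul, norm_neg_FF, mul_pow]
    have hG0 : 0 ≤ G c := norm_nonneg _
    split_ifs with hcS
    · have h5 := pow_le_pow_left₀ (norm_nonneg _) (hFF ((c : ℝ) / M)) 2
      have h6 := pow_le_pow_left₀ hG0 (hW c hc) 2
      have h7 : ‖FF I a ((c : ℝ) / M)‖ ^ 2 * G c ^ 2 ≤ (I.card : ℝ) ^ 2 * W ^ 2 :=
        mul_le_mul h5 h6 (by positivity) (by positivity)
      have h8 : 0 ≤ (I.card : ℝ) ^ 2 * (η ^ 2 * G c ^ 2) := by positivity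
      linarith
    · have h5 := pow_le_pow_left₀ (norm_nonneg _) (hS c hc hcS) 2
      have h7 : ‖FF I a ((c : ℝ) / M)‖ ^ 2 * G c ^ 2 ≤ (η * I.card) ^ 2 * G c ^ 2 :=
        mul_le_mul_of_nonneg_right h5 (by positivity)
      calc _ ≤ _ := h7
        _ = _ := by ring
  refine (sum_le_sum h4).trans ?_
  rw [sum_add_distrib, ← mul_sum, ← mul_sum, mul_add]
  apply add_le_add _ le_rfl
  rw [← sum_filter, sum_const, nsmul_eq_mul]
  have h5 : (((range M).filter (fun c => c ∈ S)).card : ℝ) ≤ S.card := by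
    exact_mod_cast card_le_card (fun c hc => (mem_filter.1 hc).2)
  calc (((range M).filter (fun c => c ∈ S)).card : ℝ) * ((I.card : ℝ) ^ 2 * W ^ 2) ≤
      S.card * ((I.card : ℝ) ^ 2 * W ^ 2) := mul_le_mul_of_nonneg_right h5 (by positivity)
    _ = _ := by ring

/-- the translates with a large deviation, one length -/
theorem bad_one {ι : Type*} {M : ℕ} (hM : 1 ≤ M) {H H1 : ℕ} (hHH : H ≤ H1) (hH1M : H1 ≤ M) (I : Finset ι) (hI : I.Nonempty) (a : ι → ℕ)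
    (W : ℝ) (hW0 : 0 ≤ W)
    (hW : ∀ r < M, ‖∑ n ∈ range M, ((DD H H1 n : ℝ) : ℂ) * ee (-((n : ℝ) * ((r : ℝ) / M)))‖ ≤ W)
    (η : ℝ) (hη : 0 ≤ η) (S : Finset ℕ) (hS : ∀ c ∈ range M, c ∉ S → ‖FF I a ((c : ℝ) / M)‖ ≤ η * I.card)
    (τ : ℝ) (hτ : 0 < τ) :
    (((range M).filter (fun b => τ * I.card < |∑ i ∈ I, DD H H1 ((a i + b) % M)|)).card : ℝ) * (τ ^ 2 * M) ≤
      S.card * W ^ 2 + η ^ 2 * (M ^ 2 * Real.log ((2 * M : ℕ) : ℝ) ^ 2) := by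
  classical
  have hM0 : (0 : ℝ) < M := by exact_mod_cast hM
  have hI0 : (0 : ℝ) < I.card := by exact_mod_cast hI.card_pos
  have hl : 0 ≤ Real.log ((2 * M : ℕ) : ℝ) := Real.log_natCast_nonneg _
  set f : ℕ → ℝ := fun n => DD H H1 (n % M) with hf
  have hfp : ∀ n, f (n + M) = f n := by
    intro n
    simp only [hf, Nat.add_mod_right]
  have hfn : ∀ n ∈ range M, f n = DD H H1 n := by
    intro n hn
    simp only [hf]
    rw [Nat.mod_eq_of_lt (mem_range.1 hn)]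
  have hW' : ∀ c ∈ range M, ‖∑ n ∈ range M, ((f n : ℝ) : ℂ) * ee ((n : ℝ) * ((c : ℝ) / M))‖ ≤ W := by
    intro c hc
    have e := norm_neg_sum (range M) f (fun n => (n : ℝ) * ((c : ℝ) / M))
    rw [← e]
    refine le_trans (le_of_eq ?_) (hW c (mem_range.1 hc))
    congr 1
    exact sum_congr rfl fun n hn => by rw [hfn n hn]
  have key := var_split hM f hfp I a W hW0 hW' η hη S hS
  have hsq : ∑ n ∈ range M, f n ^ 2 ≤ M * Real.log ((2 * M : ℕ) : ℝ) ^ 2 := by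
    calc ∑ n ∈ range M, f n ^ 2 ≤ ∑ _n ∈ range M, Real.log ((2 * M : ℕ) : ℝ) ^ 2 := by
          apply sum_le_sum
          intro n hn
          rw [hfn n hn]
          rw [mem_range] at hn
          have h1 := DD_le H H1 n (2 * M) (by omega) (by omega) (by omega)
          rw [← sq_abs]
          exact pow_le_pow_left₀ (abs_nonneg _) h1 2
      _ = _ := by rw [sum_const, card_range, nsmul_eq_mul]
  set E := (range M).filter (fun b => τ * I.card < |∑ i ∈ I, DD H H1 ((a i + b) % M)|) with hE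
  have h1 : (E.card : ℝ) * (τ * I.card) ^ 2 ≤ ∑ b ∈ range M, (∑ i ∈ I, f (a i + b)) ^ 2 := by
    calc (E.card : ℝ) * (τ * I.card) ^ 2 = ∑ _b ∈ E, (τ * I.card) ^ 2 := by rw [sum_const, nsmul_eq_mul]
      _ ≤ ∑ b ∈ E, (∑ i ∈ I, f (a i + b)) ^ 2 := by
          apply sum_le_sum
          intro b hb
          rw [hE, mem_filter] at hb
          rw [← sq_abs (∑ i ∈ I, f (a i + b))]
          exact pow_le_pow_left₀ (by positivity) hb.2.le 2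
      _ ≤ _ := sum_le_sum_of_subset_of_nonneg (filter_subset _ _) fun _ _ _ => sq_nonneg _
  have h2 : (M : ℝ) * ((E.card : ℝ) * (τ * I.card) ^ 2) ≤
      (I.card : ℝ) ^ 2 * (S.card * W ^ 2 + η ^ 2 * (M * (M * Real.log ((2 * M : ℕ) : ℝ) ^ 2))) := by
    refine (mul_le_mul_of_nonneg_left h1 hM0.le).trans (key.trans ?_)
    gcongr
  have h3 : (I.card : ℝ) ^ 2 * ((E.card : ℝ) * (τ ^ 2 * M)) ≤ (I.card : ℝ) ^ 2 *
      (S.card * W ^ 2 + η ^ 2 * (M ^ 2 * Real.log ((2 * M : ℕ) : ℝ) ^ 2)) := by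
    calc _ = (M : ℝ) * ((E.card : ℝ) * (τ * I.card) ^ 2) := by ring
      _ ≤ _ := h2
      _ = _ := by ring
  exact le_of_mul_le_mul_left h3 (by positivity)

end Pool.Agent.K1H84.TF
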