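import Mathlib
import Pool.Agent.K1H84.TF.Var
import Pool.Agent.W301.SS.Trans

/-! Weighted sums over almost all translates of a family, for all lengths. -/

set_option autoImplicit false

namespace Pool.Agent.K1H84.TF

open Finset Filter
open Pool.Agent.W301.SS
open Pool.Agent.H807R2.Dav

/-- the sum of `om` over the intervals to the right of the translate -/
noncomputable def TH {ι : Type*} (I : Finset ι) (a : ι → ℕ) (M b y : ℕ) : ℝ :=
  ∑ i ∈ I, ∑ h ∈ Ioc 0 y, om ((a i + b) % M + h)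

lemma TH_mono {ι : Type*} (I : Finset ι) (a : ι → ℕ) (M b : ℕ) {y z : ℕ} (h : y ≤ z) : TH I a M b y ≤ TH I a M b z := by
  unfold TH
  apply sum_le_sum
  intro i _
  apply sum_le_sum_of_subset_of_nonneg
  · intro t ht
    rw [mem_Ioc] at ht ⊢
    omega
  · intro t _ _
    exact om_nonneg _

lemma TH_pnt {ι : Type*} (I : Finset ι) (a : ι → ℕ) {M : ℕ} (hM : 1 ≤ M) (b y : ℕ) (hy : y ≤ 2 * M) (E : ℝ)
    (hE : ∀ m : ℕ, m ≤ 4 * M → |Chebyshev.theta (m : ℝ) - m| ≤ E) :
    |TH I a M b y - (I.card : ℝ) * y| ≤ (I.card : ℝ) * (2 * E) := by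
  have e : TH I a M b y - (I.card : ℝ) * y = ∑ i ∈ I,
      (Chebyshev.theta (((a i + b) % M + y : ℕ) : ℝ) - Chebyshev.theta (((a i + b) % M : ℕ) : ℝ) - y) := by
    unfold TH
    simp_rw [sum_om_Ioc, sum_sub_distrib, sum_const, nsmul_eq_mul]
  rw [e]
  refine (abs_sum_le_sum_abs _ _).trans ?_
  calc _ ≤ ∑ _i ∈ I, 2 * E := by
        apply sum_le_sum
        intro i _
        have h0 : (a i + b) % M < M := Nat.mod_lt _ hM
        have h3 := hE ((a i + b) % M + y) (by omega)
        have h4 := hE ((a i + b) % M) (by omega)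
        rw [abs_le] at h3 h4 ⊢
        push_cast at h3 h4 ⊢
        constructor <;> linarith
    _ = _ := by rw [sum_const, nsmul_eq_mul]

lemma sum_DD {ι : Type*} (I : Finset ι) (a : ι → ℕ) (M b H H1 : ℕ) :
    ∑ i ∈ I, DD H H1 ((a i + b) % M) = TH I a M b H / H - TH I a M b H1 / H1 := by
  unfold DD TH
  rw [sum_sub_distrib, sum_div, sum_div]

/-- **Weighted sums.** -/
theorem thetaFam (C C1 : ℕ) (ε : ℝ) (hε : 0 < ε) (hε1 : ε ≤ 1) : ∃ K : ℕ, ∀ᶠ M : ℕ in atTop,
    ∀ (ι : Type) (I : Finset ι) (a : ι → ℕ), I.Nonempty → ∀ S : Finset ℕ, (S.card : ℝ) ≤ Real.log M ^ C1 →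
    (∀ c ∈ range M, c ∉ S → ‖FF I a ((c : ℝ) / M)‖ ≤ 1 / Real.log M ^ (C + 4) * I.card) →
    ∃ E : Finset ℕ, E ⊆ range M ∧ (E.card : ℝ) * Real.log M ^ C ≤ M ∧
      ∀ b ∈ range M, b ∉ E → ∀ y : ℕ, Real.log M ^ K ≤ y → y ≤ M →
        |TH I a M b y - (I.card : ℝ) * y| ≤ ε * ((I.card : ℝ) * y) := by
  classical
  set η : ℝ := ε / 16 with hη
  have hη0 : 0 < η := by positivity
  have hη1 : η ≤ 1 / 16 := by rw [hη]; linarith
  set w : ℕ := C1 + C + 4 with hw
  obtain ⟨K, B, hKB⟩ := DD_small w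
  have hlr : 0 < Real.log (1 + η) := Real.log_pos (by linarith)
  refine ⟨K + 1, ?_⟩
  filter_upwards [hKB, ev_L (1 / η + 8 / (η ^ 2 * Real.log (1 + η)) + 64 / η ^ 2 + 8 / η + 8), ev_log (B + 2) 4 1 (by norm_num),
    pnt_unif (B + 3), eventually_ge_atTop 16] with M hsm hL hbig hpnt hM16 ι I a hI S hSc hS
  have hMr : (16 : ℝ) ≤ M := by exact_mod_cast hM16
  have hM0 : (0 : ℝ) < M := by linarith
  have hM1 : 1 ≤ M := by omega
  set ℓ := Real.log M with hℓ
  have hd1 : 0 < 1 / η := by positivity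
  have hd2 : 0 < 8 / (η ^ 2 * Real.log (1 + η)) := by positivity
  have hd3 : 0 < 64 / η ^ 2 := by positivity
  have hd4 : 0 < 8 / η := by positivity
  have hℓ8 : 8 ≤ ℓ := by linarith
  have hℓ0 : 0 < ℓ := by linarith
  have hℓ1 : 1 ≤ ℓ := by linarith
  rw [Real.rpow_one] at hbig
  set c : ℝ := (I.card : ℝ) with hc
  have hc0 : 0 < c := by rw [hc]; exact_mod_cast hI.card_pos
  -- the long length
  set H1 : ℕ := ⌊(M : ℝ) / ℓ ^ B⌋₊ with hH1
  have hH1le : (H1 : ℝ) ≤ M / ℓ ^ B := Nat.floor_le (by positivity)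
  have hB4 : 4 * ℓ ≤ (M : ℝ) / ℓ ^ B := by
    rw [le_div_iff₀ (by positivity)]
    calc 4 * ℓ * ℓ ^ B = 4 * ℓ ^ (B + 1) := by rw [pow_succ]; ring
      _ ≤ 4 * ℓ ^ (B + 2) := by
          apply mul_le_mul_of_nonneg_left _ (by norm_num)
          exact pow_le_pow_right₀ hℓ1 (by omega)
      _ ≤ M := hbig
  have hH1ge : (M : ℝ) / ℓ ^ B ≤ 2 * H1 := by
    have := Nat.lt_floor_add_one ((M : ℝ) / ℓ ^ B)
    rw [← hH1] at this
    linarith
  have hH1r : 2 * ℓ ≤ (H1 : ℝ) := by linarith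
  have hH10 : (0 : ℝ) < H1 := by linarith
  have hH11 : 1 ≤ H1 := by
    have : (1 : ℝ) ≤ H1 := by linarith
    exact_mod_cast this
  have hH1B : (H1 : ℝ) * ℓ ^ B ≤ M := by rwa [le_div_iff₀ (by positivity)] at hH1le
  have hH1M : H1 ≤ M := by
    have : (H1 : ℝ) ≤ M := hH1le.trans (div_le_self hM0.le (one_le_pow₀ hℓ1))
    exact_mod_cast this
  have hPN : 0 ≤ (M : ℝ) / ℓ ^ (B + 3) := by positivity
  -- prime number theorem for long lengths
  have hlong : ∀ b z : ℕ, (M : ℝ) / ℓ ^ (B + 1) ≤ 2 * z → z ≤ 2 * M → |TH I a M b z - c * z| ≤ (η / 2) * (c * z) := by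
    intro b z hz1 hz2
    have a1 := TH_pnt I a hM1 b z hz2 _ hpnt
    refine a1.trans ?_
    have a2 : 2 * (M / ℓ ^ (B + 3)) ≤ (η / 2) * z := by
      have a3 : 2 * (M / ℓ ^ (B + 3)) = (2 / ℓ ^ 2) * (M / ℓ ^ (B + 1)) := by
        have : ℓ ^ (B + 3) = ℓ ^ 2 * ℓ ^ (B + 1) := by rw [← pow_add]; congr 1; omega
        rw [this]; field_simp
      rw [a3]
      calc (2 / ℓ ^ 2) * (M / ℓ ^ (B + 1)) ≤ (2 / ℓ ^ 2) * (2 * z) := by gcongr
        _ = (4 / ℓ ^ 2) * z := by ring
        _ ≤ (η / 2) * z := by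
            apply mul_le_mul_of_nonneg_right _ (Nat.cast_nonneg _)
            rw [div_le_div_iff₀ (by positivity) (by norm_num)]
            have h5 : 8 / η ≤ ℓ := by linarith
            rw [div_le_iff₀ hη0] at h5
            nlinarith
    calc c * (2 * (M / ℓ ^ (B + 3))) ≤ c * ((η / 2) * z) := mul_le_mul_of_nonneg_left a2 hc0.le
      _ = _ := by ring
  set J : ℕ := ⌊ℓ / Real.log (1 + η)⌋₊ + 2 with hJ
  set Bd : ℕ → Finset ℕ := fun H => (range M).filter (fun b => η * c < |∑ i ∈ I, DD H H1 ((a i + b) % M)|) with hBd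
  set BB : ℕ → Finset ℕ := fun j => if ℓ ^ K ≤ (gr η j : ℝ) ∧ 1 ≤ gr η j ∧ gr η j ≤ H1 then Bd (gr η j) else ∅ with hBB
  -- the bad translates for one length
  have hBBc : ∀ j, ((BB j).card : ℝ) * ℓ ^ (C + 2) * 8 ≤ M * (η ^ 2 * Real.log (1 + η)) := by
    intro j
    simp only [hBB]
    split_ifs with h
    · have key := bad_one hM1 h.2.2 hH1M I hI a (M / ℓ ^ w) (by positivity)
        (fun r hr => hsm (gr η j) H1 h.2.1 h.2.2 h.1 hH1B r hr) (1 / ℓ ^ (C + 4)) (by positivity) S hS η hη0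
      have hlog2 : Real.log ((2 * M : ℕ) : ℝ) ≤ 2 * ℓ := by
        push_cast
        rw [Real.log_mul (by norm_num) hM0.ne']
        have := Real.log_two_lt_d9
        linarith
      have hlog0 : 0 ≤ Real.log ((2 * M : ℕ) : ℝ) := Real.log_natCast_nonneg _
      have k1 : (S.card : ℝ) * (M / ℓ ^ w) ^ 2 ≤ M ^ 2 / ℓ ^ (2 * C + 6) := by
        calc (S.card : ℝ) * (M / ℓ ^ w) ^ 2 ≤ ℓ ^ C1 * (M / ℓ ^ w) ^ 2 := by gcongr
          _ = M ^ 2 / ℓ ^ (C1 + 2 * C + 8) := by
              have e : (ℓ ^ w) ^ 2 = ℓ ^ C1 * ℓ ^ (C1 + 2 * C + 8) := by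
                rw [← pow_mul, ← pow_add]; congr 1; omega
              rw [div_pow, e]; field_simp
          _ ≤ _ := by
              apply div_le_div_of_nonneg_left (by positivity) (by positivity)
              exact pow_le_pow_right₀ hℓ1 (by omega)
      have k2 : (1 / ℓ ^ (C + 4)) ^ 2 * ((M : ℝ) ^ 2 * Real.log ((2 * M : ℕ) : ℝ) ^ 2) ≤ 4 * (M ^ 2 / ℓ ^ (2 * C + 6)) := by
        calc _ ≤ (1 / ℓ ^ (C + 4)) ^ 2 * ((M : ℝ) ^ 2 * (2 * ℓ) ^ 2) := by gcongr
          _ = 4 * (M ^ 2 / ℓ ^ (2 * C + 6)) := by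
              have e : (ℓ ^ (C + 4)) ^ 2 = ℓ ^ (2 * C + 6) * ℓ ^ 2 := by
                rw [← pow_mul, ← pow_add]; congr 1; omega
              rw [div_pow, one_pow, e]; field_simp; norm_num
      have k3 : (((Bd (gr η j)).card : ℝ)) * (η ^ 2 * M) ≤ 5 * (M ^ 2 / ℓ ^ (2 * C + 6)) := by
        refine key.trans ?_
        linarith
      have k4 : (((Bd (gr η j)).card : ℝ)) * η ^ 2 ≤ 5 * (M / ℓ ^ (2 * C + 6)) := by
        have h5 : ((((Bd (gr η j)).card : ℝ)) * η ^ 2) * M ≤ (5 * (M / ℓ ^ (2 * C + 6))) * M := by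
          calc _ = (((Bd (gr η j)).card : ℝ)) * (η ^ 2 * M) := by ring
            _ ≤ _ := k3
            _ = _ := by ring
        exact le_of_mul_le_mul_right h5 hM0
      have k5 : (((Bd (gr η j)).card : ℝ)) * ℓ ^ (C + 2) * 8 * η ^ 2 ≤ M * (η ^ 2 * Real.log (1 + η)) * η ^ 2 := by
        calc (((Bd (gr η j)).card : ℝ)) * ℓ ^ (C + 2) * 8 * η ^ 2 = ((((Bd (gr η j)).card : ℝ)) * η ^ 2) * (8 * ℓ ^ (C + 2)) := by ring
          _ ≤ (5 * (M / ℓ ^ (2 * C + 6))) * (8 * ℓ ^ (C + 2)) := by gcongr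
          _ = 40 * (M / ℓ ^ (C + 4)) := by
              have e : ℓ ^ (2 * C + 6) = ℓ ^ (C + 4) * ℓ ^ (C + 2) := by rw [← pow_add]; congr 1; omega
              rw [e]; field_simp; norm_num
          _ ≤ 40 * (M / ℓ ^ 4) := by
              apply mul_le_mul_of_nonneg_left _ (by norm_num)
              apply div_le_div_of_nonneg_left hM0.le (by positivity)
              exact pow_le_pow_right₀ hℓ1 (by omega)
          _ ≤ M * (η ^ 2 * Real.log (1 + η)) * η ^ 2 := by
              have h6 : 8 / (η ^ 2 * Real.log (1 + η)) ≤ ℓ := by linarith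
              have h7 : 64 / η ^ 2 ≤ ℓ := by linarith
              rw [div_le_iff₀ (by positivity)] at h6 h7
              have h8 : (8 : ℝ) * 64 ≤ (ℓ * (η ^ 2 * Real.log (1 + η))) * (ℓ * η ^ 2) := by gcongr
              have h9 : 40 / ℓ ^ 4 ≤ (η ^ 2 * Real.log (1 + η)) * η ^ 2 := by
                rw [div_le_iff₀ (by positivity)]
                have h10 : ℓ ^ 2 ≤ ℓ ^ 4 := pow_le_pow_right₀ hℓ1 (by norm_num)
                have h11 : 0 ≤ (η ^ 2 * Real.log (1 + η)) * η ^ 2 := by positivity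
                calc (40 : ℝ) ≤ (ℓ * (η ^ 2 * Real.log (1 + η))) * (ℓ * η ^ 2) := by linarith
                  _ = (η ^ 2 * Real.log (1 + η)) * η ^ 2 * ℓ ^ 2 := by ring
                  _ ≤ _ := mul_le_mul_of_nonneg_left h10 h11
              calc 40 * ((M : ℝ) / ℓ ^ 4) = M * (40 / ℓ ^ 4) := by ring
                _ ≤ M * ((η ^ 2 * Real.log (1 + η)) * η ^ 2) := mul_le_mul_of_nonneg_left h9 hM0.le
                _ = _ := by ring
      exact le_of_mul_le_mul_right k5 (by positivity)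
    · rw [card_empty]
      push_cast
      have : 0 ≤ M * (η ^ 2 * Real.log (1 + η)) := by positivity
      linarith
  refine ⟨(range J).biUnion BB, ?_, ?_, ?_⟩
  · intro b hb
    rw [mem_biUnion] at hb
    obtain ⟨j, _, hj⟩ := hb
    simp only [hBB] at hj
    split_ifs at hj with h
    · exact (mem_filter.1 hj).1
    · exact absurd hj (notMem_empty _)
  · have h1 : (((range J).biUnion BB).card : ℝ) ≤ ∑ j ∈ range J, ((BB j).card : ℝ) := by
      exact_mod_cast card_biUnion_le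
    have h2 : (∑ j ∈ range J, ((BB j).card : ℝ)) * (ℓ ^ (C + 2) * 8) ≤ J * (M * (η ^ 2 * Real.log (1 + η))) := by
      rw [sum_mul]
      calc _ ≤ ∑ _j ∈ range J, M * (η ^ 2 * Real.log (1 + η)) := sum_le_sum fun j _ => by
            have := hBBc j
            linarith
        _ = _ := by rw [sum_const, card_range, nsmul_eq_mul]
    have h3 : (J : ℝ) * (η ^ 2 * Real.log (1 + η)) ≤ ℓ ^ 2 * 8 := by
      have h4 : (J : ℝ) ≤ ℓ / Real.log (1 + η) + 2 := by
        rw [hJ]; push_cast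
        have := Nat.floor_le (show 0 ≤ ℓ / Real.log (1 + η) by positivity)
        linarith
      have hlη : Real.log (1 + η) ≤ η := by
        have := Real.log_le_sub_one_of_pos (show 0 < 1 + η by linarith)
        linarith
      have h6 : η ^ 2 ≤ 1 := by nlinarith
      calc (J : ℝ) * (η ^ 2 * Real.log (1 + η)) ≤ (ℓ / Real.log (1 + η) + 2) * (η ^ 2 * Real.log (1 + η)) := by gcongr
        _ = η ^ 2 * (ℓ + 2 * Real.log (1 + η)) := by field_simp
        _ ≤ 1 * (ℓ + 2 * 1) := by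
            have : 0 ≤ ℓ + 2 * Real.log (1 + η) := by positivity
            apply mul_le_mul h6 _ this (by norm_num)
            linarith
        _ ≤ ℓ ^ 2 * 8 := by nlinarith
    have h7 : ((((range J).biUnion BB).card : ℝ) * ℓ ^ C) * (ℓ ^ 2 * 8) ≤ M * (ℓ ^ 2 * 8) := by
      calc ((((range J).biUnion BB).card : ℝ) * ℓ ^ C) * (ℓ ^ 2 * 8) =
            (((range J).biUnion BB).card : ℝ) * (ℓ ^ (C + 2) * 8) := by rw [pow_add]; ring
        _ ≤ (∑ j ∈ range J, ((BB j).card : ℝ)) * (ℓ ^ (C + 2) * 8) := by gcongr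
        _ ≤ _ := h2
        _ = M * (J * (η ^ 2 * Real.log (1 + η))) := by ring
        _ ≤ M * (ℓ ^ 2 * 8) := mul_le_mul_of_nonneg_left h3 hM0.le
    exact le_of_mul_le_mul_right h7 (by positivity)
  · intro b hb hbE y hy1 hy2
    rcases le_or_gt ((M : ℝ) / ℓ ^ (B + 1)) (2 * y) with hcase | hcase
    · refine (hlong b y hcase (by omega)).trans ?_
      apply mul_le_mul_of_nonneg_right _ (by positivity)
      rw [hη]; linarith
    · have hyℓ : ℓ ≤ y := by
        refine le_trans ?_ hy1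
        calc ℓ = ℓ ^ 1 := (pow_one _).symm
          _ ≤ ℓ ^ (K + 1) := pow_le_pow_right₀ hℓ1 (by omega)
      have hy0 : (1 : ℝ) ≤ y := by linarith
      have hy0n : 1 ≤ y := by exact_mod_cast hy0
      obtain ⟨j, g1, g2, g3, g4, g5⟩ := gr_mem hη0 (by linarith) y hy0n (by linarith)
      have hyK : ℓ ^ K * 2 ≤ y := by
        have h1 : ℓ ^ K * ℓ ≤ y := by rw [← pow_succ]; exact hy1
        have h2 : 0 ≤ ℓ ^ K := by positivity
        nlinarith
      have hgj : (1 / 2) * (y : ℝ) ≤ gr η j := by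
        refine le_trans ?_ g5
        have h4 : (1 / 2) * (y : ℝ) ≤ (1 - 2 * η) * y := by nlinarith
        exact h4
      have hjJ : j + 1 < J := by
        have h1 : (j : ℝ) ≤ ℓ / Real.log (1 + η) := by
          rw [le_div_iff₀ hlr, ← Real.log_pow]
          apply Real.log_le_log (by positivity)
          refine g1.trans ?_
          exact_mod_cast hy2
        have h2 : j ≤ ⌊ℓ / Real.log (1 + η)⌋₊ := Nat.le_floor h1
        omega
      have hyH1 : 2 * (y : ℝ) ≤ H1 := by
        have h1 : (M : ℝ) / ℓ ^ (B + 1) ≤ H1 := by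
          have h2 : (M : ℝ) / ℓ ^ (B + 1) = (M / ℓ ^ B) / ℓ := by rw [pow_succ, div_div]
          rw [h2, div_le_iff₀ hℓ0]
          nlinarith
        linarith
      have hg2 : gr η (j + 1) ≤ H1 := by
        have h1 : (gr η (j + 1) : ℝ) ≤ H1 := by
          refine g4.trans ?_
          nlinarith
        exact_mod_cast h1
      have hgg : gr η j ≤ gr η (j + 1) := g2.trans g3
      have hggr : (gr η j : ℝ) ≤ gr η (j + 1) := by exact_mod_cast hgg
      have hgj1 : 1 ≤ gr η j := by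
        have h1 : (0 : ℝ) < gr η j := by linarith
        have : 0 < gr η j := by exact_mod_cast h1
        omega
      -- both lengths of the grid are good
      have hH1T := hlong b H1 (by
        calc (M : ℝ) / ℓ ^ (B + 1) ≤ M / ℓ ^ B := by
              apply div_le_div_of_nonneg_left hM0.le (by positivity)
              exact pow_le_pow_right₀ hℓ1 (by omega)
          _ ≤ _ := hH1ge) (by omega)
      have hgood : ∀ j', j' < J → ℓ ^ K ≤ (gr η j' : ℝ) → 1 ≤ gr η j' → gr η j' ≤ H1 →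
          |TH I a M b (gr η j') - c * gr η j'| ≤ 2 * η * (c * gr η j') := by
        intro j' hj' q1 q2 q3
        have hnot : b ∉ BB j' := fun hcon => hbE (mem_biUnion.2 ⟨j', mem_range.2 hj', hcon⟩)
        simp only [hBB] at hnot
        rw [if_pos ⟨q1, q2, q3⟩] at hnot
        simp only [hBd, mem_filter, not_and, not_lt] at hnot
        have h1 := hnot hb
        rw [sum_DD] at h1
        have hg0 : (0 : ℝ) < gr η j' := by exact_mod_cast q2
        have h2 : |TH I a M b H1 / H1 - c| ≤ (η / 2) * c := by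
          have e : TH I a M b H1 / H1 - c = (TH I a M b H1 - c * H1) / H1 := by field_simp
          rw [e, abs_div, abs_of_pos hH10, div_le_iff₀ hH10]
          linarith
        have h3 : |TH I a M b (gr η j') / (gr η j' : ℝ) - c| ≤ 2 * η * c := by
          have h4 := abs_sub_le (TH I a M b (gr η j') / (gr η j' : ℝ)) (TH I a M b H1 / H1) c
          have : 0 ≤ η * c := by positivity
          linarith
        have e : TH I a M b (gr η j') - c * gr η j' = (TH I a M b (gr η j') / (gr η j' : ℝ) - c) * gr η j' := by field_simp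
        rw [e, abs_mul, abs_of_pos hg0]
        calc _ ≤ (2 * η * c) * gr η j' := mul_le_mul_of_nonneg_right h3 hg0.le
          _ = _ := by ring
      have m1 := (abs_le.1 (hgood j (by omega) (by linarith) hgj1 (by omega))).1
      have m2 := (abs_le.1 (hgood (j + 1) hjJ (by linarith) (by omega) hg2)).2
      have c1 := TH_mono I a M b g2
      have c2 := TH_mono I a M b g3
      have hcy : 0 ≤ c * y := by positivity
      have u1 : TH I a M b y ≤ (1 + 2 * η) * (c * ((1 + η) * y)) := by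
        calc TH I a M b y ≤ TH I a M b (gr η (j + 1)) := c2
          _ ≤ (1 + 2 * η) * (c * gr η (j + 1)) := by linarith
          _ ≤ _ := by gcongr
      have u2 : (1 - 2 * η) * (c * ((1 - 2 * η) * y)) ≤ TH I a M b y := by
        calc (1 - 2 * η) * (c * ((1 - 2 * η) * y)) ≤ (1 - 2 * η) * (c * gr η j) := by
              apply mul_le_mul_of_nonneg_left _ (by linarith)
              gcongr
          _ ≤ TH I a M b (gr η j) := by linarith
          _ ≤ _ := c1
      have h8 : ε = 16 * η := by rw [hη]; ring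
      rw [abs_le, h8]
      constructor
      · have : (1 - 2 * η) * (c * ((1 - 2 * η) * y)) = (1 - 4 * η + 4 * η ^ 2) * (c * y) := by ring
        rw [this] at u2
        nlinarith [mul_nonneg (sq_nonneg η) hcy]
      · have : (1 + 2 * η) * (c * ((1 + η) * y)) = (1 + 3 * η + 2 * η ^ 2) * (c * y) := by ring
        rw [this] at u1
        have h9 : η ^ 2 ≤ η := by nlinarith
        nlinarith [mul_le_mul_of_nonneg_right h9 hcy]

end Pool.Agent.K1H84.TF
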