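import Mathlib
import Pool.Agent.K1H84.TF.Fam
import Pool.Agent.W301.SS.Avg

/-! Averages of `R(x, y)` over almost all translates of a family. -/

set_option autoImplicit false

namespace Pool.Agent.K1H84.TF

open Finset Filter
open Pool.Agent.W301.SS
open Pool.Agent.H807R2.Dav

/-- `R(x, y)` for natural `x` -/
noncomputable def Rn (x : ℕ) (y : ℝ) : ℝ :=
  ((Nat.primeCounting ⌊(x : ℝ) + y⌋₊ : ℝ) - Nat.primeCounting x) / (y / Real.log (x : ℝ))

lemma Rn_eq (x : ℕ) (y : ℝ) (hy : 0 ≤ y) : Rn x y = pn x ⌊y⌋₊ * Real.log (x : ℝ) / y := by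
  unfold Rn
  rw [pn_floor x y hy, div_div_eq_mul_div]

lemma pn_log_le (x Y : ℕ) : (pn x Y : ℝ) * Real.log (x : ℝ) ≤ ∑ h ∈ Ioc 0 Y, om (x + h) := by
  rw [pn_eq, sum_mul]
  apply sum_le_sum
  intro h hh
  rw [mem_Ioc] at hh
  unfold om
  split_ifs with hp
  · rw [one_mul]
    rcases Nat.eq_zero_or_pos x with h0 | h0
    · subst h0
      simp only [Nat.cast_zero, Real.log_zero]
      exact Real.log_natCast_nonneg _
    · exact Real.log_le_log (by exact_mod_cast h0) (by push_cast; linarith [(Nat.cast_nonneg h : (0 : ℝ) ≤ h)])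
  · rw [zero_mul]

lemma om_le_pn (x Y X : ℕ) (h : x + Y ≤ X) : ∑ h ∈ Ioc 0 Y, om (x + h) ≤ (pn x Y : ℝ) * Real.log (X : ℝ) := by
  rw [pn_eq, sum_mul]
  apply sum_le_sum
  intro h hh
  rw [mem_Ioc] at hh
  unfold om
  split_ifs with hp
  · rw [one_mul]
    exact Real.log_le_log (by exact_mod_cast hp.pos) (by exact_mod_cast (by omega : x + h ≤ X))
  · rw [zero_mul]

/-- the number of shifts for which a given member is small -/
lemma count_small {M X : ℕ} (hM : 1 ≤ M) (a : ℕ) (hX : X ≤ M) :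
    ((range M).filter (fun b => (a + b) % M < X)).card ≤ X := by
  have h : ((range M).filter (fun b => (a + b) % M < X)).card ≤ (range X).card := by
    apply card_le_card_of_injOn (fun b => (a + b) % M)
    · intro b hb
      rw [coe_filter] at hb
      exact mem_coe.2 (mem_range.2 hb.2)
    · intro b hb b' hb' hbb
      rw [coe_filter] at hb hb'
      have h1 := mem_range.1 hb.1
      have h2 := mem_range.1 hb'.1
      have h3 : (a + b) ≡ (a + b') [MOD M] := hbb
      have h4 := Nat.ModEq.add_left_cancel' a h3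
      exact Nat.ModEq.eq_of_lt_of_lt h4 h1 h2
  rwa [card_range] at h

theorem avgFam (C C1 : ℕ) (ε : ℝ) (hε : 0 < ε) (hε1 : ε ≤ 1) : ∃ K : ℕ, ∀ᶠ M : ℕ in atTop,
    ∀ (ι : Type) (I : Finset ι) (a : ι → ℕ), I.Nonempty → ∀ S : Finset ℕ, (S.card : ℝ) ≤ Real.log M ^ C1 →
    (∀ c ∈ range M, c ∉ S → ‖FF I a ((c : ℝ) / M)‖ ≤ 1 / Real.log M ^ (C + 5) * I.card) →
    ∃ E : Finset ℕ, E ⊆ range M ∧ (E.card : ℝ) * Real.log M ^ C ≤ M ∧
      ∀ b ∈ range M, b ∉ E → ∀ y : ℝ, Real.log M ^ K ≤ y → y ≤ M →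
        |(∑ i ∈ I, Rn ((a i + b) % M) y) / I.card - 1| ≤ ε := by
  classical
  set δ : ℝ := ε / 8 with hδ
  have hδ0 : 0 < δ := by positivity
  have hδ1 : δ ≤ 1 / 8 := by rw [hδ]; linarith
  obtain ⟨K, hK⟩ := thetaFam (C + 1) C1 δ hδ0 (by linarith)
  refine ⟨K + 2, ?_⟩
  have hev : ∀ᶠ M : ℕ in atTop, Real.log M ^ (2 * (C + 5)) ≤ (M : ℝ) ^ (2 * δ) := by
    filter_upwards [ev_log (2 * (C + 5)) 1 (2 * δ) (by positivity)] with M hM
    linarith
  filter_upwards [hK, ev_L (16 / δ + 16), ev_log (C + 6) 2 1 (by norm_num),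
    ev_log (C + 5) 2 (δ / 2) (by positivity), eventually_ge_atTop 16] with M h1 hL hbig hbig2 hM16 ι I a hI S hSc hS
  have hMr : (16 : ℝ) ≤ M := by exact_mod_cast hM16
  have hM0 : (0 : ℝ) < M := by linarith
  have hM1 : 1 ≤ M := by omega
  set ℓ := Real.log M with hℓ
  have hd1 : 0 < 16 / δ := by positivity
  have hℓ16 : 16 ≤ ℓ := by linarith
  have hℓ0 : 0 < ℓ := by linarith
  have hℓ1 : 1 ≤ ℓ := by linarith
  have hδℓ : 16 ≤ δ * ℓ := by
    have : 16 / δ ≤ ℓ := by linarith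
    rw [div_le_iff₀ hδ0] at this
    linarith
  rw [Real.rpow_one] at hbig
  set c : ℝ := (I.card : ℝ) with hc
  have hc0 : 0 < c := by rw [hc]; exact_mod_cast hI.card_pos
  obtain ⟨E1, hE1, hE1c, hE1b⟩ := h1 ι I a hI S hSc (by
    intro t ht htS
    exact hS t ht htS)
  set X0 : ℕ := ⌈(M : ℝ) / ℓ ^ (C + 5)⌉₊ with hX0
  have hX0ge : (M : ℝ) / ℓ ^ (C + 5) ≤ X0 := Nat.le_ceil _
  have hX0le : (X0 : ℝ) ≤ 2 * (M / ℓ ^ (C + 5)) := by
    have h2 := Nat.ceil_lt_add_one (show 0 ≤ (M : ℝ) / ℓ ^ (C + 5) by positivity)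
    rw [← hX0] at h2
    have h3 : 1 ≤ (M : ℝ) / ℓ ^ (C + 5) := by
      rw [le_div_iff₀ (by positivity)]
      calc 1 * ℓ ^ (C + 5) ≤ 2 * ℓ ^ (C + 6) := by
            have : ℓ ^ (C + 5) ≤ ℓ ^ (C + 6) := pow_le_pow_right₀ hℓ1 (by omega)
            have h0 : 0 ≤ ℓ ^ (C + 6) := by positivity
            linarith
        _ ≤ M := hbig
    linarith
  have hX0M : X0 ≤ M := by
    have : (X0 : ℝ) ≤ M := by
      refine hX0le.trans ?_
      have h3 : (M : ℝ) / ℓ ^ (C + 5) ≤ M / 2 := by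
        apply div_le_div_of_nonneg_left hM0.le (by norm_num)
        calc (2 : ℝ) ≤ ℓ := by linarith
          _ = ℓ ^ 1 := (pow_one _).symm
          _ ≤ ℓ ^ (C + 5) := pow_le_pow_right₀ hℓ1 (by omega)
      linarith
    exact_mod_cast this
  set sm : ℕ → Finset ι := fun b => I.filter (fun i => (a i + b) % M < X0) with hsm
  set E2 : Finset ℕ := (range M).filter (fun b => c < ((sm b).card : ℝ) * ℓ ^ 2) with hE2
  have hE2c : (E2.card : ℝ) ≤ X0 * ℓ ^ 2 := by
    have h2 : ∑ b ∈ range M, ((sm b).card : ℝ) ≤ c * X0 := by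
      have e : ∑ b ∈ range M, ((sm b).card : ℝ) = ∑ i ∈ I, (((range M).filter (fun b => (a i + b) % M < X0)).card : ℝ) := by
        simp only [hsm, card_filter]
        push_cast
        exact sum_comm
      rw [e]
      calc _ ≤ ∑ _i ∈ I, (X0 : ℝ) := sum_le_sum fun i _ => by exact_mod_cast count_small hM1 (a i) hX0M
        _ = _ := by rw [sum_const, nsmul_eq_mul]
    have h3 : (E2.card : ℝ) * c ≤ (∑ b ∈ range M, ((sm b).card : ℝ)) * ℓ ^ 2 := by
      calc (E2.card : ℝ) * c = ∑ _b ∈ E2, c := by rw [sum_const, nsmul_eq_mul]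
        _ ≤ ∑ b ∈ E2, ((sm b).card : ℝ) * ℓ ^ 2 := sum_le_sum fun b hb => (mem_filter.1 hb).2.le
        _ ≤ ∑ b ∈ range M, ((sm b).card : ℝ) * ℓ ^ 2 :=
            sum_le_sum_of_subset_of_nonneg (filter_subset _ _) fun _ _ _ => by positivity
        _ = _ := by rw [sum_mul]
    have h4 : (E2.card : ℝ) * c ≤ (X0 * ℓ ^ 2) * c := by
      calc _ ≤ _ := h3
        _ ≤ (c * X0) * ℓ ^ 2 := by gcongr
        _ = _ := by ring
    exact le_of_mul_le_mul_right h4 hc0
  refine ⟨E1 ∪ E2, union_subset hE1 (filter_subset _ _), ?_, ?_⟩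
  · have h2 : ((E1 ∪ E2).card : ℝ) ≤ E1.card + E2.card := by exact_mod_cast card_union_le _ _
    have h3 : (E1.card : ℝ) * ℓ ^ C ≤ M / ℓ := by
      rw [le_div_iff₀ hℓ0]
      calc _ = (E1.card : ℝ) * ℓ ^ (C + 1) := by rw [pow_succ]; ring
        _ ≤ M := hE1c
    have h4 : (E2.card : ℝ) * ℓ ^ C ≤ 2 * (M / ℓ) := by
      calc (E2.card : ℝ) * ℓ ^ C ≤ (X0 * ℓ ^ 2) * ℓ ^ C := by gcongr
        _ ≤ (2 * (M / ℓ ^ (C + 5)) * ℓ ^ 2) * ℓ ^ C := by gcongr
        _ = 2 * (M / ℓ ^ 3) := by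
            have e : ℓ ^ (C + 5) = ℓ ^ 2 * ℓ ^ C * ℓ ^ 3 := by rw [← pow_add, ← pow_add]; congr 1; omega
            rw [e]; field_simp
        _ ≤ _ := by
            apply mul_le_mul_of_nonneg_left _ (by norm_num)
            apply div_le_div_of_nonneg_left hM0.le hℓ0
            exact le_self_pow₀ hℓ1 (by norm_num)
    have h5 : (M : ℝ) / ℓ ≤ M / 16 := div_le_div_of_nonneg_left hM0.le (by norm_num) hℓ16
    calc ((E1 ∪ E2).card : ℝ) * ℓ ^ C ≤ (E1.card + E2.card) * ℓ ^ C := by gcongr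
      _ = E1.card * ℓ ^ C + E2.card * ℓ ^ C := by ring
      _ ≤ M := by linarith
  · intro b hb hbE y hy1 hy2
    rw [mem_union, not_or] at hbE
    have hy16 : 16 / δ ≤ y := by
      have : ℓ ≤ ℓ ^ (K + 2) := le_self_pow₀ hℓ1 (by omega)
      linarith
    have hδy : 16 ≤ δ * y := by
      rw [div_le_iff₀ hδ0] at hy16
      linarith
    have hy0 : 0 < y := lt_of_lt_of_le (by positivity) hy16
    have hy16' : 16 ≤ y := by nlinarith
    set Y : ℕ := ⌊y⌋₊ with hY
    have hYy : (Y : ℝ) ≤ y := Nat.floor_le hy0.le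
    have hYy2 : (1 - δ) * y ≤ Y := by
      have := Nat.lt_floor_add_one y
      rw [← hY] at this
      linarith
    have hY0 : (0 : ℝ) ≤ Y := Nat.cast_nonneg _
    have hYM : Y ≤ M := by
      have : (Y : ℝ) ≤ M := hYy.trans hy2
      exact_mod_cast this
    have hYK : ℓ ^ K ≤ Y := by
      refine le_trans ?_ hYy2
      have h2 : ℓ ^ K * 2 ≤ ℓ ^ (K + 2) := by
        rw [pow_add]
        have h0 : 0 ≤ ℓ ^ K := by positivity
        have h4 : (2 : ℝ) ≤ ℓ ^ 2 := by nlinarith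
        exact mul_le_mul_of_nonneg_left h4 h0
      have h3 : 0 ≤ ℓ ^ K := by positivity
      have h5 : (7 / 8) * y ≤ (1 - δ) * y := mul_le_mul_of_nonneg_right (by linarith) hy0.le
      linarith
    have hT := hE1b b hb hbE.1 Y hYK hYM
    set T : ℝ := TH I a M b Y with hTd
    have hT1 := (abs_le.1 hT).1
    have hT2 := (abs_le.1 hT).2
    have hRn : ∀ i, Rn ((a i + b) % M) y = pn ((a i + b) % M) Y * Real.log (((a i + b) % M : ℕ) : ℝ) / y :=
      fun i => Rn_eq _ y hy0.le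
    -- upper bound
    have hup : ∑ i ∈ I, Rn ((a i + b) % M) y ≤ T / y := by
      rw [hTd]
      unfold TH
      rw [sum_div]
      apply sum_le_sum
      intro i _
      rw [hRn i]
      exact div_le_div_of_nonneg_right (pn_log_le _ _) hy0.le
    -- lower bound
    set L2 : ℝ := Real.log ((2 * M : ℕ) : ℝ) with hL2
    have hL2le : L2 ≤ ℓ + 1 := by
      rw [hL2]
      push_cast
      rw [Real.log_mul (by norm_num) hM0.ne']
      have := Real.log_two_lt_d9
      linarith
    have hL20 : 0 ≤ L2 := Real.log_natCast_nonneg _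
    have hbm : c ≥ 0 := hc0.le
    have hlogX : ∀ x : ℕ, X0 ≤ x → (1 - δ) * L2 ≤ Real.log (x : ℝ) := by
      intro x hx
      have hMX : (M : ℝ) / ℓ ^ (C + 5) ≤ x := hX0ge.trans (by exact_mod_cast hx)
      have h2 : Real.log ((M : ℝ) / ℓ ^ (C + 5)) ≤ Real.log x := Real.log_le_log (by positivity) hMX
      have h3 : Real.log ((M : ℝ) / ℓ ^ (C + 5)) = ℓ - Real.log (ℓ ^ (C + 5)) := by
        rw [Real.log_div hM0.ne' (by positivity)]
      have h4 : Real.log (ℓ ^ (C + 5)) ≤ δ / 2 * ℓ := by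
        have h5 : ℓ ^ (C + 5) ≤ (M : ℝ) ^ (δ / 2) := by
          have : 0 ≤ ℓ ^ (C + 5) := by positivity
          linarith
        have h6 := Real.log_le_log (by positivity) h5
        rwa [Real.log_rpow hM0] at h6
      nlinarith
    have hlow : ∀ i ∈ I, (1 - δ) * (if (a i + b) % M < X0 then 0 else ∑ h ∈ Ioc 0 Y, om ((a i + b) % M + h)) / y ≤
        Rn ((a i + b) % M) y := by
      intro i _
      rw [hRn i]
      apply div_le_div_of_nonneg_right _ hy0.le
      have hx : (a i + b) % M < M := Nat.mod_lt _ hM1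
      split_ifs with hxX
      · rw [mul_zero]
        exact mul_nonneg (Nat.cast_nonneg _) (Real.log_natCast_nonneg _)
      · have h2 := om_le_pn ((a i + b) % M) Y (2 * M) (by omega)
        have h3 := hlogX ((a i + b) % M) (not_lt.1 hxX)
        have h4 : (0 : ℝ) ≤ pn ((a i + b) % M) Y := Nat.cast_nonneg _
        calc (1 - δ) * ∑ h ∈ Ioc 0 Y, om ((a i + b) % M + h) ≤ (1 - δ) * (pn ((a i + b) % M) Y * L2) :=
              mul_le_mul_of_nonneg_left h2 (by linarith)
          _ = pn ((a i + b) % M) Y * ((1 - δ) * L2) := by ring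
          _ ≤ _ := mul_le_mul_of_nonneg_left h3 h4
    have hsmall : ∑ i ∈ I, (if (a i + b) % M < X0 then 0 else ∑ h ∈ Ioc 0 Y, om ((a i + b) % M + h)) ≥
        T - δ * (c * y) := by
      have h2 : T = ∑ i ∈ I, (if (a i + b) % M < X0 then 0 else ∑ h ∈ Ioc 0 Y, om ((a i + b) % M + h)) +
          ∑ i ∈ I, (if (a i + b) % M < X0 then ∑ h ∈ Ioc 0 Y, om ((a i + b) % M + h) else 0) := by
        rw [hTd]
        unfold TH
        rw [← sum_add_distrib]
        apply sum_congr rfl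
        intro i _
        split_ifs <;> ring
      have h3 : ∑ i ∈ I, (if (a i + b) % M < X0 then ∑ h ∈ Ioc 0 Y, om ((a i + b) % M + h) else 0) ≤ δ * (c * y) := by
        rw [← sum_filter]
        have h4 : ∑ i ∈ I.filter (fun i => (a i + b) % M < X0), ∑ h ∈ Ioc 0 Y, om ((a i + b) % M + h) ≤
            ((sm b).card : ℝ) * (Y * L2) := by
          calc _ ≤ ∑ _i ∈ I.filter (fun i => (a i + b) % M < X0), (Y : ℝ) * L2 := by
                apply sum_le_sum
                intro i _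
                have hx : (a i + b) % M < M := Nat.mod_lt _ hM1
                refine (om_le_pn ((a i + b) % M) Y (2 * M) (by omega)).trans ?_
                apply mul_le_mul_of_nonneg_right _ hL20
                exact_mod_cast pn_le _ _
            _ = _ := by rw [sum_const, nsmul_eq_mul]
        refine h4.trans ?_
        have h5 : ((sm b).card : ℝ) * ℓ ^ 2 ≤ c := by
          by_contra hcon
          exact hbE.2 (mem_filter.2 ⟨hb, not_le.1 hcon⟩)
        have h6 : L2 ≤ 2 * ℓ := by linarith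
        have h7 : ((sm b).card : ℝ) * (Y * L2) * ℓ ≤ (δ * (c * y)) * ℓ := by
          calc ((sm b).card : ℝ) * (Y * L2) * ℓ ≤ ((sm b).card : ℝ) * (y * (2 * ℓ)) * ℓ := by gcongr
            _ = (((sm b).card : ℝ) * ℓ ^ 2) * (2 * y) := by ring
            _ ≤ c * (2 * y) := by gcongr
            _ ≤ (δ * ℓ) * (c * y) := by
                have : 0 ≤ c * y := by positivity
                nlinarith
            _ = _ := by ring
        exact le_of_mul_le_mul_right h7 hℓ0
      linarith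
    have hlo : (1 - δ) * (T - δ * (c * y)) / y ≤ ∑ i ∈ I, Rn ((a i + b) % M) y := by
      refine le_trans ?_ (sum_le_sum hlow)
      rw [← sum_div, ← mul_sum]
      apply div_le_div_of_nonneg_right _ hy0.le
      exact mul_le_mul_of_nonneg_left hsmall (by linarith)
    have hcy : 0 < c * y := by positivity
    have hT3 : T ≤ (1 + δ) * (c * y) := by
      have : c * Y ≤ c * y := mul_le_mul_of_nonneg_left hYy hc0.le
      nlinarith
    have hT4 : (1 - δ) * ((1 - δ) * (c * y)) ≤ T := by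
      have : (1 - δ) * (c * y) ≤ c * Y := by
        calc (1 - δ) * (c * y) = c * ((1 - δ) * y) := by ring
          _ ≤ _ := mul_le_mul_of_nonneg_left hYy2 hc0.le
      have h2 : (1 - δ) * ((1 - δ) * (c * y)) ≤ (1 - δ) * (c * Y) := mul_le_mul_of_nonneg_left this (by linarith)
      linarith
    rw [abs_le]
    have h8 : ε = 8 * δ := by rw [hδ]; ring
    constructor
    · have h9 : 1 - ε ≤ (∑ i ∈ I, Rn ((a i + b) % M) y) / c := by
        rw [le_div_iff₀ hc0]
        refine le_trans ?_ hlo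
        rw [le_div_iff₀ hy0, h8]
        have h10 : (1 - δ) * ((1 - δ) * ((1 - δ) * (c * y)) - δ * (c * y)) ≤ (1 - δ) * (T - δ * (c * y)) :=
          mul_le_mul_of_nonneg_left (by linarith) (by linarith)
        refine le_trans ?_ h10
        have e : (1 - δ) * ((1 - δ) * ((1 - δ) * (c * y)) - δ * (c * y)) = ((1 - δ) * ((1 - δ) ^ 2 - δ)) * (c * y) := by ring
        have e2 : (1 - 8 * δ) * c * y = (1 - 8 * δ) * (c * y) := by ring
        rw [e, e2]
        apply mul_le_mul_of_nonneg_right _ hcy.le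
        nlinarith [sq_nonneg δ]
      linarith
    · have h9 : (∑ i ∈ I, Rn ((a i + b) % M) y) / c ≤ 1 + ε := by
        rw [div_le_iff₀ hc0]
        refine hup.trans ?_
        rw [div_le_iff₀ hy0, h8]
        refine hT3.trans ?_
        have e2 : (1 + 8 * δ) * c * y = (1 + 8 * δ) * (c * y) := by ring
        rw [e2]
        apply mul_le_mul_of_nonneg_right _ hcy.le
        linarith
      linarith

end Pool.Agent.K1H84.TF
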