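import Mathlib
import Pool.Agent.K1H84.TF.Fin
import Pool.Agent.K1H84.TF.Energy
import Pool.Agent.K1H51.LD.Frac

/-! The final forms. -/

set_option autoImplicit false

namespace Pool.Agent.K1H84.TF

open Finset Filter
open Pool.Agent.W301.SS
open Pool.Agent.H807R2.Dav

/-- `R(x, y)` -/
noncomputable def R (x y : ℝ) : ℝ :=
  ((Nat.primeCounting ⌊x + y⌋₊ : ℝ) - Nat.primeCounting ⌊x⌋₊) / (y / Real.log x)

lemma R_nat (x : ℕ) (y : ℝ) : R (x : ℝ) y = Rn x y := by
  unfold R Rn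
  rw [Nat.floor_natCast]

/-- the mean over the points `(s i + b) mod M` -/
noncomputable def mean {ι : Type} (M : ℕ) (I : Finset ι) (s : ι → ℤ) (b : ℕ) (y : ℝ) : ℝ :=
  (∑ i ∈ I, R (((s i + b) % M : ℤ) : ℝ) y) / I.card

open Classical in
/-- the exceptional translates -/
noncomputable def exceptions {ι : Type} (M : ℕ) (I : Finset ι) (s : ι → ℤ) (ε : ℝ) (K : ℕ) : Finset ℕ :=
  (range M).filter (fun b => ∃ y : ℝ, Real.log M ^ K ≤ y ∧ y ≤ M ∧ ε < |mean M I s b y - 1|)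

lemma point_eq (M : ℕ) (hM : 1 ≤ M) (z : ℤ) (b : ℕ) :
    (((z + b) % M : ℤ) : ℝ) = ((((z % M).toNat + b) % M : ℕ) : ℝ) := by
  have hM0 : (0 : ℤ) < M := by exact_mod_cast hM
  have h1 : ((z % M).toNat : ℤ) = z % M := Int.toNat_of_nonneg (Int.emod_nonneg _ hM0.ne')
  have h2 : (((((z % M).toNat + b) % M : ℕ) : ℤ)) = (z + b) % M := by
    push_cast
    rw [h1, Int.emod_add_emod]
  rw [← h2, Int.cast_natCast]

lemma FF_FZ {ι : Type} (M : ℕ) (hM : 1 ≤ M) (I : Finset ι) (s : ι → ℤ) (c : ℕ) :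
    FF I (fun i => (s i % M).toNat) ((c : ℝ) / M) = FZ I s ((c : ℝ) / M) := by
  have hM0 : (0 : ℝ) < M := by exact_mod_cast hM
  have hM0' : (0 : ℤ) < M := by exact_mod_cast hM
  unfold FF FZ
  apply sum_congr rfl
  intro i _
  have h1 : ((s i % M).toNat : ℤ) = s i % M := Int.toNat_of_nonneg (Int.emod_nonneg _ hM0'.ne')
  have h2 : (((s i % M).toNat : ℕ) : ℝ) = ((s i % M : ℤ) : ℝ) := by exact_mod_cast h1
  have h3 : (s i : ℝ) = ((s i % M : ℤ) : ℝ) + M * ((s i / M : ℤ) : ℝ) := by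
    exact_mod_cast (Int.emod_add_mul_ediv (s i) M).symm
  have e : (s i : ℝ) * ((c : ℝ) / M) = (((s i % M).toNat : ℕ) : ℝ) * ((c : ℝ) / M) + (((c : ℤ) * (s i / M) : ℤ) : ℝ) := by
    rw [h2, h3]
    push_cast
    field_simp
  rw [e, ee_add_int]

/-- families with a small large spectrum -/
theorem general (ε : ℝ) (hε : 0 < ε) (C C1 : ℕ) : ∃ K : ℕ, ∀ M : ℕ, K ≤ M → ∀ (ι : Type) (I : Finset ι) (s : ι → ℤ),
    I.Nonempty → ∀ S : Finset ℕ, (S.card : ℝ) ≤ Real.log M ^ C1 →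
    (∀ c ∈ range M, c ∉ S → ‖FZ I s ((c : ℝ) / M)‖ ≤ 1 / Real.log M ^ (C + 5) * I.card) →
    ((exceptions M I s ε K).card : ℝ) ≤ M / Real.log M ^ C := by
  classical
  obtain ⟨K, hK⟩ := avgFam C C1 (min ε 1) (lt_min hε one_pos) (min_le_right _ _)
  obtain ⟨N₀, hN₀⟩ := Filter.eventually_atTop.1 (hK.and (ev_L 1))
  refine ⟨max K (max N₀ 3), fun M hM ι I s hI S hSc hS => ?_⟩
  have hM3 : 3 ≤ M := (le_max_right _ _).trans ((le_max_right _ _).trans hM)
  obtain ⟨h1, h2⟩ := hN₀ M ((le_max_left _ _).trans ((le_max_right _ _).trans hM))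
  have hℓ : 0 < Real.log M := by linarith
  obtain ⟨E, hE1, hE2, hE3⟩ := h1 ι I (fun i => (s i % M).toNat) hI S hSc (by
    intro c hc hcS
    rw [FF_FZ M (by omega)]
    exact hS c hc hcS)
  have hsub : exceptions M I s ε (max K (max N₀ 3)) ⊆ E := by
    intro b hb
    unfold exceptions at hb
    rw [mem_filter] at hb
    obtain ⟨hb1, y, hy1, hy2, hy3⟩ := hb
    by_contra hbE
    have hy4 : Real.log M ^ K ≤ y := (pow_le_pow_right₀ h2 (le_max_left _ _)).trans hy1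
    have h3 := hE3 b hb1 hbE y hy4 hy2
    have e : mean M I s b y = (∑ i ∈ I, Rn (((s i % M).toNat + b) % M) y) / I.card := by
      unfold mean
      congr 1
      apply sum_congr rfl
      intro i _
      rw [point_eq M (by omega), R_nat]
    rw [e] at hy3
    exact absurd (h3.trans (min_le_left _ _)) (not_le.2 hy3)
  rw [le_div_iff₀ (by positivity)]
  calc _ ≤ (E.card : ℝ) * Real.log M ^ C := by
        apply mul_le_mul_of_nonneg_right _ (by positivity)
        exact_mod_cast card_le_card hsub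
    _ ≤ M := hE2

/-- families with small additive energy -/
theorem energy (ε : ℝ) (hε : 0 < ε) (C C1 h : ℕ) : ∃ K : ℕ, ∀ M : ℕ, K ≤ M → ∀ (ι : Type) (I : Finset ι) (s : ι → ℤ),
    I.Nonempty →
    (((((Fintype.piFinset (fun _ : Fin h => I)) ×ˢ (Fintype.piFinset (fun _ : Fin h => I))).filter
        (fun x => (M : ℤ) ∣ (∑ l, s (x.1 l)) - ∑ l, s (x.2 l))).card : ℝ)) * M ≤ Real.log M ^ C1 * (I.card : ℝ) ^ (2 * h) →
    ((exceptions M I s ε K).card : ℝ) ≤ M / Real.log M ^ C := by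
  classical
  obtain ⟨K, hK⟩ := general ε hε C (C1 + 2 * h * (C + 5))
  refine ⟨K + 3, fun M hM ι I s hI hE => ?_⟩
  have hM1 : 1 ≤ M := by omega
  have hM3 : (3 : ℝ) ≤ M := by exact_mod_cast (by omega : 3 ≤ M)
  have hM0 : (0 : ℝ) < M := by linarith
  have hℓ : 0 < Real.log (M : ℝ) := Real.log_pos (by linarith)
  have hℓ1 : 1 ≤ Real.log (M : ℝ) := by
    rw [Real.le_log_iff_exp_le hM0]
    have := Real.exp_one_lt_d9
    linarith
  have hI0 : (0 : ℝ) < I.card := by exact_mod_cast hI.card_pos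
  set η : ℝ := 1 / Real.log M ^ (C + 5) with hη
  have hη0 : 0 < η := by positivity
  have key := spec_energy hM1 I s h η hη0.le
  set S := (range M).filter (fun r : ℕ => η * I.card < ‖FZ I s ((r : ℝ) / M)‖) with hS
  have h1 : (S.card : ℝ) * (η * I.card) ^ (2 * h) ≤ Real.log M ^ C1 * (I.card : ℝ) ^ (2 * h) := by
    refine key.trans ?_
    rw [mul_comm]
    exact hE
  have h2 : (S.card : ℝ) ≤ Real.log M ^ (C1 + 2 * h * (C + 5)) := by
    have h3 : (S.card : ℝ) * η ^ (2 * h) ≤ Real.log M ^ C1 := by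
      have h4 : ((S.card : ℝ) * η ^ (2 * h)) * (I.card : ℝ) ^ (2 * h) ≤ Real.log M ^ C1 * (I.card : ℝ) ^ (2 * h) := by
        calc _ = (S.card : ℝ) * (η * I.card) ^ (2 * h) := by rw [mul_pow]; ring
          _ ≤ _ := h1
      exact le_of_mul_le_mul_right h4 (by positivity)
    have h5 : η ^ (2 * h) = 1 / Real.log M ^ (2 * h * (C + 5)) := by
      rw [hη, div_pow, one_pow, ← pow_mul]
      congr 2
      ring
    rw [h5, mul_one_div, div_le_iff₀ (by positivity), ← pow_add] at h3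
    exact h3
  have h3 := hK M (by omega) ι I s hI S h2 (fun c hc hcS => by
    rw [hS, mem_filter, not_and, not_lt] at hcS
    exact hcS hc)
  refine le_trans ?_ h3
  apply Nat.cast_le.2
  apply card_le_card
  intro b hb
  unfold exceptions at hb ⊢
  rw [mem_filter] at hb ⊢
  obtain ⟨hb1, y, hy1, hy2, hy3⟩ := hb
  exact ⟨hb1, y, (pow_le_pow_right₀ hℓ1 (by omega)).trans hy1, hy2, hy3⟩

end Pool.Agent.K1H84.TF
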