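import Mathlib
import Pool.Agent.K1H84.TF.Out
import Pool.Agent.K1H51.LD.Frac

/-! The explicit families. -/

set_option autoImplicit false

namespace Pool.Agent.K1H84.TF

open Finset Filter
open Pool.Agent.W301.SS
open Pool.Agent.H807R2.Dav
open Pool.Agent.K1H51.LD (primes_many frac_sum frac pairs)
open Pool.Agent.H373R2.T7

theorem frac_all (U1 : ℕ) (hU1 : 1 ≤ U1) : ∃ C N₀ : ℕ, ∀ M : ℕ, N₀ ≤ M → M.Prime → ∀ c : ℤ,
    (pairs ⌊Real.log M ^ C⌋₊ ⌊Real.log M ^ (2 * C)⌋₊).Nonempty ∧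
    (∀ t : ℕ, 0 < t → t < M → ‖∑ i ∈ pairs ⌊Real.log M ^ C⌋₊ ⌊Real.log M ^ (2 * C)⌋₊, ee ((t : ℝ) * ((frac M c i : ℝ) / M))‖ ≤
      (1 / Real.log M ^ U1) * (pairs ⌊Real.log M ^ C⌋₊ ⌊Real.log M ^ (2 * C)⌋₊).card) := by
  obtain ⟨C, hC⟩ : ∃ C, C = U1 + 4 := ⟨_, rfl⟩
  obtain ⟨n1, h1⟩ := primes_many C (by omega)
  obtain ⟨n2, h2⟩ := ev_L' 100
  obtain ⟨n3, h3⟩ := ev_log' C 8
  refine ⟨C, n1 + n2 + n3 + 4, fun M hN hMp c => ?_⟩
  have h1 := h1 M (by omega)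
  have h2 := h2 M (by omega)
  have h3 := h3 M (by omega)
  have hN4 : (4 : ℝ) ≤ M := by exact_mod_cast (by omega : 4 ≤ M)
  have hM0 : (0 : ℝ) < M := by linarith
  obtain ⟨L, hL⟩ : ∃ L, L = Real.log (M : ℝ) := ⟨_, rfl⟩
  rw [← hL] at h1 h2 h3 ⊢
  have hLbig : (100 : ℝ) ≤ L := by exact_mod_cast h2
  have hL0 : 0 < L := by linarith
  have hL1 : 1 ≤ L := by linarith
  obtain ⟨P, hP⟩ : ∃ P, P = ⌊L ^ C⌋₊ := ⟨_, rfl⟩
  obtain ⟨S, hS⟩ : ∃ S, S = ⌊L ^ (2 * C)⌋₊ := ⟨_, rfl⟩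
  rw [← hP] at h1 ⊢
  rw [← hS]
  obtain ⟨pi, hpi⟩ : ∃ pi : ℝ, pi = (((Icc 1 P).filter Nat.Prime).card : ℝ) := ⟨_, rfl⟩
  rw [← hpi] at h1
  have hP1 : (P : ℝ) ≤ L ^ C := by rw [hP]; exact Nat.floor_le (by positivity)
  have hS2 : L ^ (2 * C) < S + 1 := by rw [hS]; exact Nat.lt_floor_add_one _
  have hLC2 : 2 ≤ L ^ (2 * C) := by
    calc (2 : ℝ) ≤ L := by linarith
      _ = L ^ 1 := (pow_one L).symm
      _ ≤ L ^ (2 * C) := pow_le_pow_right₀ hL1 (by omega)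
  have hSlow : L ^ (2 * C) / 2 ≤ S := by linarith
  have hS0 : (0 : ℝ) < S := by linarith
  have hcard : ((pairs P S).card : ℝ) = pi * S := by
    unfold pairs
    rw [card_product, Nat.card_Icc, Nat.add_sub_cancel, hpi]
    push_cast
    ring
  have hsq : √(M : ℝ) ≤ M := by
    rw [Real.sqrt_le_left hM0.le]
    nlinarith
  have hPM : 6 * P < M := by
    have : (6 * P : ℝ) < M := by
      have h4 : 8 * (P : ℝ) ≤ M := by
        calc 8 * (P : ℝ) ≤ 8 * L ^ C := by linarith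
          _ ≤ √(M : ℝ) := h3
          _ ≤ M := hsq
      have h5 : (0 : ℝ) ≤ P := Nat.cast_nonneg _
      linarith
    exact_mod_cast this
  have hlog2 : (Nat.log 2 M : ℝ) ≤ 3 * L := by
    have h4 : (2 : ℝ) ^ (Nat.log 2 M) ≤ M := by
      exact_mod_cast Nat.pow_log_le_self 2 hMp.ne_zero
    have h5 := Real.log_le_log (by positivity) h4
    rw [Real.log_pow] at h5
    have h6 := Real.log_two_gt_d9
    have h7 : (0 : ℝ) ≤ Nat.log 2 M := Nat.cast_nonneg _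
    nlinarith
  have hpi0 : 0 ≤ pi := by rw [hpi]; exact Nat.cast_nonneg _
  have hLU : 0 < L ^ U1 := by positivity
  have hLCe : L ^ C = L ^ U1 * L ^ 4 := by rw [hC, pow_add]
  have hpi1 : 12 * L * L ^ U1 ≤ pi := by
    rw [hLCe] at h1
    have h4 : L ^ U1 * L ^ 4 = (L ^ U1 * L ^ 3) * L := by ring
    rw [h4] at h1
    have h5 : L ^ U1 * L ^ 3 ≤ 8 * pi := by
      have : (L ^ U1 * L ^ 3) * L ≤ (8 * pi) * L := by linarith
      exact le_of_mul_le_mul_right this hL0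
    have h6 : 96 * L ≤ L ^ 3 := by
      have h7 : 96 ≤ L ^ 2 := by nlinarith
      calc 96 * L ≤ L ^ 2 * L := mul_le_mul_of_nonneg_right h7 hL0.le
        _ = L ^ 3 := by ring
    have h8 := mul_le_mul_of_nonneg_left h6 hLU.le
    linarith
  have hSP : 2 * L ^ U1 * P ≤ S := by
    have h4 : 2 * L ^ U1 * P ≤ 2 * L ^ U1 * L ^ C := mul_le_mul_of_nonneg_left hP1 (by positivity)
    have h5 : 2 * L ^ U1 * L ^ C ≤ L ^ (2 * C) / 2 := by
      have h6 : L ^ (2 * C) = L ^ C * L ^ C := by rw [two_mul, pow_add]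
      have h7 : 4 * L ^ U1 ≤ L ^ C := by
        rw [hLCe]
        have : (4 : ℝ) ≤ L ^ 4 := by
          calc (4 : ℝ) ≤ L := by linarith
            _ = L ^ 1 := (pow_one L).symm
            _ ≤ L ^ 4 := pow_le_pow_right₀ hL1 (by norm_num)
        nlinarith
      rw [h6]
      have h8 : 0 < L ^ C := by positivity
      nlinarith
    linarith
  constructor
  · rw [← Finset.card_pos]
    have : (0 : ℝ) < (pairs P S).card := by
      rw [hcard]
      have : 0 < pi := lt_of_lt_of_le (by positivity) hpi1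
      positivity
    exact_mod_cast this
  · intro t ht0 htM
    refine (frac_sum M P S hMp hPM c t ht0 htM).trans ?_
    rw [hcard, ← hpi]
    have e1 : 2 * (Nat.log 2 M : ℝ) * S ≤ (1 / L ^ U1) * (pi * S) / 2 := by
      have h4 : 2 * (Nat.log 2 M : ℝ) ≤ 6 * L := by linarith
      have h5 : 6 * L ≤ (1 / L ^ U1) * pi / 2 := by
        rw [one_div, inv_mul_eq_div, div_div, le_div_iff₀ (by positivity)]
        linarith
      calc 2 * (Nat.log 2 M : ℝ) * S ≤ (1 / L ^ U1) * pi / 2 * S := mul_le_mul_of_nonneg_right (h4.trans h5) hS0.le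
        _ = _ := by ring
    have e2 : pi * P ≤ (1 / L ^ U1) * (pi * S) / 2 := by
      have h5 : (P : ℝ) ≤ (1 / L ^ U1) * S / 2 := by
        rw [one_div, inv_mul_eq_div, div_div, le_div_iff₀ (by positivity)]
        linarith
      calc pi * P ≤ pi * ((1 / L ^ U1) * S / 2) := mul_le_mul_of_nonneg_left h5 hpi0
        _ = _ := by ring
    linarith

/-- the explicit families of powers of the logarithm -/
theorem explicit (ε : ℝ) (hε : 0 < ε) (C : ℕ) : ∃ A K : ℕ, ∀ M : ℕ, K ≤ M → M.Prime → ∀ c : ℤ,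
    ((exceptions M (pairs ⌊Real.log M ^ A⌋₊ ⌊Real.log M ^ (2 * A)⌋₊) (frac M c) ε K).card : ℝ) ≤ M / Real.log M ^ C := by
  classical
  obtain ⟨A, N₀, hA⟩ := frac_all (C + 5) (by omega)
  obtain ⟨K, hK⟩ := general ε hε C 0
  refine ⟨A, K + N₀ + 3, fun M hM hMp c => ?_⟩
  have hM3 : (3 : ℝ) ≤ M := by exact_mod_cast (by omega : 3 ≤ M)
  have hM0 : (0 : ℝ) < M := by linarith
  have hℓ1 : 1 ≤ Real.log (M : ℝ) := by
    rw [Real.le_log_iff_exp_le hM0]
    have := Real.exp_one_lt_d9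
    linarith
  obtain ⟨h1, h2⟩ := hA M (by omega) hMp c
  have h3 := hK M (by omega) (ℕ × ℕ) (pairs ⌊Real.log M ^ A⌋₊ ⌊Real.log M ^ (2 * A)⌋₊) (frac M c) h1 {0} (by simp)
    (fun t ht ht0 => by
      rw [mem_range] at ht
      rw [mem_singleton] at ht0
      have h4 := h2 t (by omega) ht
      have e : FZ (pairs ⌊Real.log M ^ A⌋₊ ⌊Real.log M ^ (2 * A)⌋₊) (frac M c) ((t : ℝ) / M) =
          ∑ i ∈ pairs ⌊Real.log M ^ A⌋₊ ⌊Real.log M ^ (2 * A)⌋₊, ee ((t : ℝ) * ((frac M c i : ℝ) / M)) := by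
        unfold FZ
        apply sum_congr rfl
        intro i _
        congr 1
        ring
      rw [e]
      exact h4)
  refine le_trans ?_ h3
  apply Nat.cast_le.2
  apply card_le_card
  intro b hb
  unfold exceptions at hb ⊢
  rw [mem_filter] at hb ⊢
  obtain ⟨hb1, y, hy1, hy2, hy3⟩ := hb
  exact ⟨hb1, y, (pow_le_pow_right₀ hℓ1 (by omega)).trans hy1, hy2, hy3⟩

end Pool.Agent.K1H84.TF
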